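import Pool.Agent.H359Z.Adm.Interp

/-! The constants, the unit disc and comparison of moduli are defined by the ring formulas. -/

set_option autoImplicit false

namespace Pool.Agent.H359Z.Adm

open Metric Set Filter Topology

theorem un_sub_CC {x : HR} {c : ℂ} : ¬ Un (x - CC c) ↔ c ∈ (fun z => ev z x) '' DD := by
  rw [un_iff]
  push Not
  simp only [map_sub, ev_CC, sub_eq_zero, mem_image]

theorem dense_of_closed {B : Set ℂ} (h1 : (1:ℂ) ∈ B) (hI : Complex.I ∈ B ∨ -Complex.I ∈ B)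
    (hsub : ∀ x ∈ B, ∀ y ∈ B, x - y ∈ B) (hhalf : ∀ x ∈ B, x / 2 ∈ B) : Dense B := by
  have h0 : (0:ℂ) ∈ B := by simpa using hsub 1 h1 1 h1
  have hneg : ∀ x ∈ B, -x ∈ B := fun x hx => by simpa using hsub 0 h0 x hx
  have hI' : Complex.I ∈ B := hI.elim id fun h => by simpa using hneg _ h
  let A : AddSubgroup ℂ :=
    { carrier := B
      add_mem' := fun {a b} ha hb => by simpa using hsub a ha (-b) (hneg b hb)
      zero_mem' := h0
      neg_mem' := fun {a} ha => hneg a ha }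
  have hpow : ∀ x ∈ B, ∀ k : ℕ, x * (1/2) ^ k ∈ B := by
    intro x hx k
    induction k with
    | zero => simpa using hx
    | succ k ih =>
      have := hhalf _ ih
      convert this using 1
      ring
  rw [Metric.dense_iff]
  intro w ε hε
  obtain ⟨k, hk⟩ := exists_pow_lt_of_lt_one (half_pos hε) (by norm_num : (1/2:ℝ) < 1)
  set δ : ℝ := (1/2) ^ k with hδ
  have hδ0 : 0 < δ := by positivity
  have hfl : ∀ t : ℝ, |(⌊t / δ⌋ : ℝ) * δ - t| ≤ δ := by
    intro t
    have h1 := Int.floor_le (t / δ)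
    have h2 := Int.lt_floor_add_one (t / δ)
    rw [le_div_iff₀ hδ0] at h1
    rw [div_lt_iff₀ hδ0] at h2
    rw [abs_le]; constructor <;> linarith
  have hmem : ⌊w.re / δ⌋ • ((1:ℂ) * (1/2) ^ k) + ⌊w.im / δ⌋ • (Complex.I * (1/2) ^ k) ∈ A :=
    A.add_mem (A.zsmul_mem (hpow 1 h1 k) _) (A.zsmul_mem (hpow _ hI' k) _)
  refine ⟨_, ?_, hmem⟩
  have e : ((1/2 : ℂ)) ^ k = (δ : ℂ) := by rw [hδ]; push_cast; rfl
  rw [mem_ball, dist_eq_norm, e]
  refine (Complex.norm_le_abs_re_add_abs_im _).trans_lt ?_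
  have a1 := hfl w.re
  have a2 := hfl w.im
  simp only [zsmul_eq_mul, Complex.sub_re, Complex.add_re, Complex.mul_re, Complex.intCast_re,
    Complex.intCast_im, Complex.ofReal_re, Complex.ofReal_im, Complex.I_re, Complex.I_im,
    Complex.mul_im, Complex.sub_im, Complex.add_im, mul_zero,
    zero_mul, one_mul, sub_zero, add_zero, zero_add, sub_self]
  linarith

theorem om_CC (c : ℂ) : Om (CC c) ∨ CC c = 1 ∨ CC c = -1 := by
  by_cases h1 : c = 1
  · right; left; rw [h1, map_one]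
  by_cases h2 : c = -1
  · right; right; rw [h2, map_neg, map_one]
  left
  rw [om_iff]
  intro z _
  exact ⟨h1, h2⟩

theorem exists_code : ∃ F G H : HR, ∀ x, Cd F G H x ↔ ∃ q : ℚ × ℚ, x = CC (q.1 + q.2 * Complex.I) := by
  classical
  obtain ⟨m, hm0, hm⟩ := rigid
  obtain ⟨H, hH⟩ := exists_HH
  obtain ⟨F, hF⟩ := interp (fun k => m k + 1) (fun k => zc (sk k) ^ m k)
  obtain ⟨en, hen⟩ := exists_surjective_nat ((ℚ × ℚ) × ℕ)
  let e : ℕ → ℂ := fun k => (en k).1.1 + (en k).1.2 * Complex.I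
  obtain ⟨G, hG⟩ := interp m (fun k => CC (e k))
  have hfreq : ∀ q : ℚ × ℚ, ∃ᶠ k in atTop, (en k).1 = q := by
    intro q
    rw [Nat.frequently_atTop_iff_infinite]
    have hinj : Function.Injective (fun n : ℕ => Function.surjInv hen (q, n)) := by
      intro a b hab
      have := Function.injective_surjInv hen hab
      simpa using this
    refine infinite_of_injective_forall_mem hinj fun n => ?_
    show (en _).1 = q
    rw [Function.surjInv_eq hen]
  have hFk : ∀ k, ∃ w, F = zc (sk k) ^ m k * w ∧ ev (sk k) w ≠ 0 := by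
    intro k
    obtain ⟨w, hw⟩ := hF k
    refine ⟨1 + zc (sk k) * w, ?_, ?_⟩
    · linear_combination hw
    · simp [ev_zc (sk_mem k)]
  have hinner : ∀ x y : HR, (∀ p, Ir p → Dv p H → Od p F (x - G) → Od p F y) ↔
      ∀ k, zc (sk k) ^ m k ∣ x - CC (e k) → zc (sk k) ^ m k ∣ y := by
    intro x y
    have hmatch : ∀ k, zc (sk k) ^ m k ∣ x - G ↔ zc (sk k) ^ m k ∣ x - CC (e k) := by
      intro k
      have : x - CC (e k) = (x - G) + (G - CC (e k)) := by ring
      rw [this]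
      exact (dvd_add_left (hG k)).symm
    constructor
    · intro h k hk
      obtain ⟨w, hw1, hw2⟩ := hFk k
      have := h (zc (sk k)) (ir_zc (sk_mem k))
        ((dv_assoc (sk_mem k) (Associated.refl _)).2 ((hH _ (sk_mem k)).2 ⟨k, rfl⟩))
      rw [od_iff (sk_mem k) (Associated.refl _) hw1 hw2,
        od_iff (sk_mem k) (Associated.refl _) hw1 hw2, hmatch] at this
      exact this hk
    · intro h p hp hpH
      obtain ⟨a, ha, hpa⟩ := ir_assoc hp
      rw [dv_assoc ha hpa, hH a ha] at hpH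
      obtain ⟨k, rfl⟩ := hpH
      obtain ⟨w, hw1, hw2⟩ := hFk k
      rw [od_iff ha hpa hw1 hw2, od_iff ha hpa hw1 hw2, hmatch]
      exact h k
  refine ⟨F, G, H, fun x => ?_⟩
  unfold Cd
  simp only [hinner]
  constructor
  · rintro ⟨h1, h2⟩
    by_cases hfr : ∃ᶠ k in atTop, zc (sk k) ^ m k ∣ x - CC (e k)
    · have hc : ∃ c, x = CC c := by
        rcases h1 with h1 | h1 | h1
        · exact hm x h1 e hfr
        · exact ⟨1, by rw [h1, map_one]⟩
        · exact ⟨-1, by rw [h1, map_neg, map_one]⟩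
      obtain ⟨c, rfl⟩ := hc
      obtain ⟨k, hk⟩ := hfr.exists
      have := (zc_dvd (sk_mem k)).1 ((dvd_pow_self _ (hm0 k).ne').trans hk)
      rw [map_sub, ev_CC, ev_CC, sub_eq_zero] at this
      exact ⟨(en k).1, by rw [this]⟩
    · exfalso
      rw [not_frequently, eventually_atTop] at hfr
      obtain ⟨K, hK⟩ := hfr
      have h3 := h2 (CC (1/2) * ∏ j ∈ Finset.range K, ph m j) (by
        rw [om_iff]
        intro z hz
        have h4 : ‖ev z (CC (1/2) * ∏ j ∈ Finset.range K, ph m j)‖ < 1 := by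
          rw [map_mul, norm_mul, ev_CC]
          have := prod_ph_le m (Finset.range K) hz
          have h5 : ‖(1/2 : ℂ)‖ = 1/2 := by simp
          rw [h5]; linarith
        constructor <;> intro h <;> rw [h] at h4 <;> simp at h4) (by
        intro k hk
        have hkK : k < K := by
          by_contra h
          exact hK k (not_lt.1 h) hk
        exact ((dvd_ph m k).trans (Finset.dvd_prod_of_mem _ (Finset.mem_range.2 hkK))).mul_left _)
      have h4 := congrArg (ev (sk K)) h3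
      rw [map_mul, ev_CC, map_prod, map_zero, mul_eq_zero, Finset.prod_eq_zero_iff] at h4
      rcases h4 with h4 | ⟨j, hj, h4⟩
      · norm_num at h4
      · exact ph_ne m (Finset.mem_range.1 hj).ne h4
  · rintro ⟨q, rfl⟩
    refine ⟨om_CC _, fun y hy h => ?_⟩
    have hfr : ∃ᶠ k in atTop, zc (sk k) ^ m k ∣ y - CC ((fun _ => 0 : ℕ → ℂ) k) := by
      refine (hfreq q).mono fun k hk => ?_
      simp only [map_zero, sub_zero]
      apply h
      simp only [e, hk, sub_self, dvd_zero]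
    obtain ⟨c, rfl⟩ := hm y hy _ hfr
    obtain ⟨k, hk⟩ := hfr.exists
    have := (zc_dvd (sk_mem k)).1 ((dvd_pow_self _ (hm0 k).ne').trans hk)
    simp only [map_zero, sub_zero, ev_CC] at this
    rw [this, map_zero]

theorem cn_iff {f : HR} : Cn f ↔ ∃ c, f = CC c := by
  constructor
  · rintro ⟨F, G, H, ⟨h1, ⟨i, hi, hii⟩, hsub, hhalf⟩, h⟩
    rcases const_or_open f with hc | ho
    · exact hc
    have hd : Dense {c : ℂ | Cd F G H (CC c)} := by
      apply dense_of_closed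
      · simpa using h1
      · have : (i - CC Complex.I) * (i - CC (-Complex.I)) = 0 := by
          have h2 : CC Complex.I * CC Complex.I = -1 := by
            rw [← map_mul, Complex.I_mul_I, map_neg, map_one]
          rw [map_neg]
          linear_combination hii - h2
        rcases mul_eq_zero.1 this with h3 | h3
        · left; rw [sub_eq_zero] at h3; rwa [h3] at hi
        · right; rw [sub_eq_zero] at h3; rwa [h3] at hi
      · intro x hx y hy
        have := hsub _ _ hx hy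
        rwa [← map_sub] at this
      · intro x hx
        obtain ⟨y, hy, hyy⟩ := hhalf _ hx
        have : y = CC (x / 2) := ext' fun z _ => by
          have := congrArg (ev z) hyy
          rw [map_add, ev_CC] at this
          rw [ev_CC]
          linear_combination this / 2
        rwa [this] at hy
    obtain ⟨c, hc1, hc2⟩ := hd.inter_open_nonempty _ ho ⟨_, mem_image_of_mem _ zero_mem_DD⟩
    rcases h _ hc2 with h3 | h3
    · exact absurd h3 (un_sub_CC.2 hc1)
    · exact ⟨c, h3⟩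
  · rintro ⟨c, rfl⟩
    obtain ⟨F, G, H, h⟩ := exists_code
    refine ⟨F, G, H, ⟨?_, ⟨CC Complex.I, ?_, ?_⟩, ?_, ?_⟩, ?_⟩
    · exact (h _).2 ⟨(1, 0), by simp⟩
    · exact (h _).2 ⟨(0, 1), by simp⟩
    · rw [← map_mul, Complex.I_mul_I, map_neg, map_one]
    · intro x y hx hy
      obtain ⟨q, rfl⟩ := (h _).1 hx
      obtain ⟨q', rfl⟩ := (h _).1 hy
      refine (h _).2 ⟨q - q', ?_⟩
      rw [← map_sub]
      congr 1
      simp only [Prod.fst_sub, Prod.snd_sub]
      push_cast; ring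
    · intro x hx
      obtain ⟨q, rfl⟩ := (h _).1 hx
      refine ⟨_, (h _).2 ⟨(q.1 / 2, q.2 / 2), rfl⟩, ?_⟩
      rw [← map_add]
      congr 1
      push_cast; ring
    · intro e he
      obtain ⟨q, rfl⟩ := (h _).1 he
      by_cases hc : c = q.1 + q.2 * Complex.I
      · right; rw [hc]
      · left
        rw [un_iff]
        intro z _
        simpa [sub_eq_zero] using hc

theorem im_iff {g x : HR} : Im g x ↔ ∃ c ∈ (fun z => ev z g) '' DD, x = CC c := by
  unfold Im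
  rw [cn_iff]
  constructor
  · rintro ⟨⟨c, rfl⟩, h⟩
    exact ⟨c, un_sub_CC.1 h, rfl⟩
  · rintro ⟨c, hc, rfl⟩
    exact ⟨⟨c, rfl⟩, un_sub_CC.2 hc⟩

theorem im_CC {g : HR} {c : ℂ} : Im g (CC c) ↔ c ∈ (fun z => ev z g) '' DD := by
  rw [im_iff]
  constructor
  · rintro ⟨d, hd, h⟩
    rwa [CC_inj h]
  · intro h
    exact ⟨c, h, rfl⟩

theorem image_ZZ : (fun z => ev z ZZ) '' DD = DD := by
  ext z
  constructor
  · rintro ⟨w, hw, rfl⟩
    simpa [ev_ZZ hw] using hw
  · intro hz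
    exact ⟨z, hz, ev_ZZ hz⟩

theorem co_ZZ : Co ZZ := by
  refine ⟨?_, ?_, ?_, ?_, ?_⟩
  · have := zc_ne_zero 0
    simpa [zc] using this
  · rw [← map_zero CC, im_CC, image_ZZ]; exact zero_mem_DD
  · rw [← map_one CC, im_CC, image_ZZ, mem_DD]; simp
  · intro c d hc' hd'
    obtain ⟨c, hc, rfl⟩ := im_iff.1 hc'
    obtain ⟨d, hd, rfl⟩ := im_iff.1 hd'
    clear hc' hd'
    rw [← map_mul, im_CC]
    rw [image_ZZ, mem_DD] at *
    rw [norm_mul]
    exact mul_lt_one_of_nonneg_of_lt_one_left (norm_nonneg _) hc hd.le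
  · intro c hc
    obtain ⟨c, rfl⟩ := cn_iff.1 hc
    by_cases h : ‖c‖ < 1
    · left; rw [im_CC, image_ZZ, mem_DD]; exact h
    · right
      intro d hd'
      obtain ⟨d, hd, rfl⟩ := im_iff.1 hd'
      rw [image_ZZ, mem_DD] at hd
      have h1 : 0 < ‖c‖ := by linarith
      have hc0 : c ≠ 0 := norm_pos_iff.1 h1
      refine ⟨CC (d / c), ?_, ?_⟩
      · rw [im_CC, image_ZZ, mem_DD, norm_div, div_lt_one h1]; linarith
      · rw [← map_mul]; congr 1; field_simp

theorem co_lt {g : HR} (hg : Co g) {c : ℂ} (hc : c ∈ (fun z => ev z g) '' DD) : ‖c‖ < 1 := by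
  obtain ⟨h0, h1, h2, h3, -⟩ := hg
  set Ω := (fun z => ev z g) '' DD with hΩ
  rw [← map_zero CC, im_CC] at h1
  rw [← map_one CC, im_CC] at h2
  have hmul : ∀ c ∈ Ω, ∀ d ∈ Ω, c * d ∈ Ω := by
    intro c hc d hd
    have := h3 _ _ (im_CC.2 hc) (im_CC.2 hd)
    rwa [← map_mul, im_CC] at this
  have ho : IsOpen Ω := by
    rcases const_or_open g with ⟨c, rfl⟩ | ho
    · exfalso
      obtain ⟨z, _, hz⟩ := h1
      simp only [ev_CC] at hz
      exact h0 (by rw [hz, map_zero])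
    · exact ho
  have hbig : ∀ c ∈ Ω, ¬ 1 < ‖c‖ := by
    intro c hc h
    have hpow : ∀ n : ℕ, c ^ (n + 1) ∈ Ω := by
      intro n
      induction n with
      | zero => simpa using hc
      | succ n ih => rw [pow_succ]; exact hmul _ ih _ hc
    have ht : Tendsto (fun n : ℕ => (c⁻¹) ^ (n + 1)) atTop (𝓝 0) := by
      rw [tendsto_add_atTop_iff_nat (f := fun n => (c⁻¹) ^ n)]
      apply tendsto_pow_atTop_nhds_zero_of_norm_lt_one
      rw [norm_inv]
      exact inv_lt_one_of_one_lt₀ h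
    obtain ⟨n, hn⟩ := (ht.eventually (ho.mem_nhds h1)).exists
    have := hmul _ (hpow n) _ hn
    have hc0 : c ≠ 0 := norm_pos_iff.1 (by linarith)
    rw [← mul_pow, mul_inv_cancel₀ hc0, one_pow] at this
    exact h2 this
  by_contra h
  have ht : Tendsto (fun t : ℝ => (t : ℂ) * c) (𝓝[>] 1) (𝓝 c) := by
    have : Continuous (fun t : ℝ => (t : ℂ) * c) := by fun_prop
    simpa using (this.tendsto 1).mono_left nhdsWithin_le_nhds
  obtain ⟨t, ht1, ht2⟩ := ((ht.eventually (ho.mem_nhds hc)).and self_mem_nhdsWithin).exists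
  apply hbig _ ht1
  have ht2' : 1 < t := ht2
  rw [norm_mul, Complex.norm_real, Real.norm_of_nonneg (by linarith)]
  nlinarith

theorem sm_iff {x : HR} : Sm x ↔ ∃ c, ‖c‖ < 1 ∧ x = CC c := by
  constructor
  · rintro ⟨g, hg, h⟩
    obtain ⟨c, hc, rfl⟩ := im_iff.1 h
    exact ⟨c, co_lt hg hc, rfl⟩
  · rintro ⟨c, hc, rfl⟩
    exact ⟨ZZ, co_ZZ, by rw [im_CC, image_ZZ, mem_DD]; exact hc⟩

theorem le_CC {u v : ℂ} : Le (CC u) (CC v) ↔ ‖u‖ ≤ ‖v‖ := by
  unfold Le
  rw [← not_lt]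
  apply not_congr
  constructor
  · rintro ⟨h0, c, hc, h⟩
    obtain ⟨c, hc, rfl⟩ := sm_iff.1 hc
    rw [← map_mul] at h
    have hu : 0 < ‖u‖ := norm_pos_iff.2 fun h => h0 (by rw [h, map_zero])
    rw [CC_inj h, norm_mul]
    nlinarith
  · intro h
    have hu : 0 < ‖u‖ := (norm_nonneg _).trans_lt h
    have hu0 : u ≠ 0 := norm_pos_iff.1 hu
    refine ⟨fun h0 => hu0 (CC_inj (by rw [h0, map_zero])), CC (v / u),
      sm_iff.2 ⟨_, by rw [norm_div, div_lt_one hu]; exact h, rfl⟩, ?_⟩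
    rw [← map_mul]; congr 1; field_simp

theorem la_iff {p q x y : HR} {a b : ℂ} (ha : a ∈ DD) (hb : b ∈ DD) (hp : Associated p (zc a))
    (hq : Associated q (zc b)) : La p x q y ↔ ‖ev a x‖ ≤ ‖ev b y‖ := by
  constructor
  · intro h
    exact le_CC.1 (h (CC (ev a x)) (CC (ev b y)) (cn_iff.2 ⟨_, rfl⟩) (cn_iff.2 ⟨_, rfl⟩)
      ((dv_assoc ha hp).2 (by simp)) ((dv_assoc hb hq).2 (by simp)))
  · intro h u v hu hv h1 h2
    obtain ⟨u, rfl⟩ := cn_iff.1 hu
    obtain ⟨v, rfl⟩ := cn_iff.1 hv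
    rw [dv_assoc ha hp, map_sub, ev_CC, sub_eq_zero] at h1
    rw [dv_assoc hb hq, map_sub, ev_CC, sub_eq_zero] at h2
    rw [le_CC, ← h1, ← h2]
    exact h

theorem oe_iff {g P : HR} {α : ℂ} : Oe g P (CC α) ↔ ∀ a ∈ DD,
    (1 - ev a g) * deriv (fun z => ev z P) a = α * ev a P * deriv (fun z => ev z g) a := by
  have key : ∀ a ∈ DD, HasDerivAt (fun z => ev z ((1 - CC (ev a g)) * (P - CC (ev a P)) -
      CC α * CC (ev a P) * (g - CC (ev a g))))
      ((1 - ev a g) * deriv (fun z => ev z P) a - α * ev a P * deriv (fun z => ev z g) a) a := by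
    intro a ha
    have h1 := ((diff P).differentiableAt (isOpen_ball.mem_nhds ha)).hasDerivAt
    have h2 := ((diff g).differentiableAt (isOpen_ball.mem_nhds ha)).hasDerivAt
    simp only [map_sub, map_mul, map_one, ev_CC]
    exact ((h1.sub_const _).const_mul _).sub ((h2.sub_const _).const_mul _)
  constructor
  · intro h a ha
    have := h (zc a) (CC (ev a g)) (CC (ev a P)) (ir_zc ha) (cn_iff.2 ⟨_, rfl⟩)
      (cn_iff.2 ⟨_, rfl⟩) ((dv_assoc ha (Associated.refl _)).2 (by simp))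
      ((dv_assoc ha (Associated.refl _)).2 (by simp))
    rw [dv_iff, zc_sq_dvd ha] at this
    exact sub_eq_zero.1 ((key a ha).unique this.2)
  · intro h p u v hp hu hv h1 h2
    obtain ⟨a, ha, hpa⟩ := ir_assoc hp
    obtain ⟨u, rfl⟩ := cn_iff.1 hu
    obtain ⟨v, rfl⟩ := cn_iff.1 hv
    rw [dv_assoc ha hpa, map_sub, ev_CC, sub_eq_zero] at h1 h2
    subst h1 h2
    rw [dv_iff, (hpa.mul_mul hpa).dvd_iff_dvd_left, zc_sq_dvd ha]
    refine ⟨by simp, ?_⟩
    have := key a ha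
    rwa [h a ha, sub_self] at this

theorem mj_iff {g h f : HR} {r : ℂ} : Mj g (CC r) h f ↔ (∀ z ∈ DD, ev z h ≠ 0) ∧
    ∀ a ∈ DD, ‖ev a g‖ ≤ ‖r‖ → 1 ≤ ‖ev a h‖ ∧ ‖ev a f‖ ≤ ‖ev a h‖ := by
  unfold Mj
  rw [un_iff]
  apply and_congr_right'
  constructor
  · intro H a ha
    have := H _ (ir_zc ha)
    simpa only [la_iff ha ha (Associated.refl _) (Associated.refl _), ev_CC, map_one,
      norm_one] using this
  · intro H p hp
    obtain ⟨a, ha, hpa⟩ := ir_assoc hp
    simpa only [la_iff ha ha hpa hpa, ev_CC, map_one, norm_one] using H a ha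

/-- the meaning of the formula `Na` -/
def NaS (f : HR) : Prop :=
  ∃ g : HR, (∀ a ∈ DD, ‖ev a g‖ < 1) ∧ ∀ a ∈ DD, ∃ (P : HR) (α : ℂ),
    (∀ b ∈ DD, (1 - ev b g) * deriv (fun z => ev z P) b =
      α * ev b P * deriv (fun z => ev z g) b) ∧
    ∀ r : ℂ, ‖r‖ < 1 → ∃ h : HR, ((∀ z ∈ DD, ev z h ≠ 0) ∧
      ∀ b ∈ DD, ‖ev b g‖ ≤ ‖r‖ → 1 ≤ ‖ev b h‖ ∧ ‖ev b f‖ ≤ ‖ev b h‖) ∧
      ∃ w ∈ DD, ‖ev w g‖ ≤ ‖r‖ ∧ ‖ev a h‖ ≤ ‖ev w P‖

theorem na_iff {f : HR} : Na f ↔ NaS f := by
  unfold Na NaS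
  refine exists_congr fun g => and_congr ?_ ?_
  · constructor
    · intro H a ha
      have := H _ (ir_zc ha)
      simpa only [la_iff ha ha (Associated.refl _) (Associated.refl _), map_one,
        norm_one, not_le] using this
    · intro H p hp
      obtain ⟨a, ha, hpa⟩ := ir_assoc hp
      simpa only [la_iff ha ha hpa hpa, map_one, norm_one, not_le] using H a ha
  · constructor
    · intro H a ha
      obtain ⟨P, α, hα, h1, h2⟩ := H _ (ir_zc ha)
      obtain ⟨α, rfl⟩ := cn_iff.1 hα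
      refine ⟨P, α, oe_iff.1 h1, fun r hr => ?_⟩
      obtain ⟨h, h3, q, hq, h4, h5⟩ := h2 (CC r) (sm_iff.2 ⟨r, hr, rfl⟩)
      obtain ⟨w, hw, hqw⟩ := ir_assoc hq
      rw [la_iff hw hw hqw hqw, ev_CC] at h4
      rw [la_iff ha hw (Associated.refl _) hqw] at h5
      exact ⟨h, mj_iff.1 h3, w, hw, h4, h5⟩
    · intro H p hp
      obtain ⟨a, ha, hpa⟩ := ir_assoc hp
      obtain ⟨P, α, h1, h2⟩ := H a ha
      refine ⟨P, CC α, cn_iff.2 ⟨_, rfl⟩, oe_iff.2 h1, fun r hr' => ?_⟩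
      obtain ⟨r, hr, rfl⟩ := sm_iff.1 hr'
      obtain ⟨h, h3, w, hw, h4, h5⟩ := h2 r hr
      refine ⟨h, mj_iff.2 h3, zc w, ir_zc hw, ?_, ?_⟩
      · rw [la_iff hw hw (Associated.refl _) (Associated.refl _), ev_CC]; exact h4
      · rw [la_iff ha hw hpa (Associated.refl _)]; exact h5

end Pool.Agent.H359Z.Adm
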