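import Mathlib

/-! First-order definable predicates on a commutative ring, and the ring formulas used to define
constants, the unit disc and admissibility in the ring of holomorphic functions on the disc. -/

set_option autoImplicit false

namespace Pool.Agent.H359Z.Adm

open FirstOrder FirstOrder.Language FirstOrder.Ring

section framework

variable {R : Type} [CommRing R] [CompatibleRing R]

/-- functions of the variables given by a term -/
def DefT {α : Type} (t : (α → R) → R) : Prop :=
  ∃ τ : Language.ring.Term α, ∀ v, τ.realize v = t v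

/-- predicates of the variables given by a formula -/
def DefP {α : Type} (P : (α → R) → Prop) : Prop :=
  ∃ φ : Language.ring.Formula α, ∀ v, φ.Realize v ↔ P v

variable {α : Type}

theorem DefT.var (a : α) : DefT (fun v : α → R => v a) := ⟨Term.var a, fun _ => rfl⟩

theorem DefT.zero : DefT (fun _ : α → R => (0 : R)) := ⟨0, fun v => by simp⟩

theorem DefT.one : DefT (fun _ : α → R => (1 : R)) := ⟨1, fun v => by simp⟩

theorem DefT.add {s t : (α → R) → R} (hs : DefT s) (ht : DefT t) : DefT (fun v => s v + t v) := by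
  obtain ⟨a, ha⟩ := hs
  obtain ⟨b, hb⟩ := ht
  exact ⟨a + b, fun v => by simp [ha, hb]⟩

theorem DefT.mul {s t : (α → R) → R} (hs : DefT s) (ht : DefT t) : DefT (fun v => s v * t v) := by
  obtain ⟨a, ha⟩ := hs
  obtain ⟨b, hb⟩ := ht
  exact ⟨a * b, fun v => by simp [ha, hb]⟩

theorem DefT.neg {s : (α → R) → R} (hs : DefT s) : DefT (fun v => - s v) := by
  obtain ⟨a, ha⟩ := hs
  exact ⟨-a, fun v => by simp [ha]⟩

theorem DefT.sub {s t : (α → R) → R} (hs : DefT s) (ht : DefT t) : DefT (fun v => s v - t v) := by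
  simpa only [sub_eq_add_neg] using hs.add ht.neg

theorem DefT.lift {s : (α → R) → R} (hs : DefT s) :
    DefT (fun w : α ⊕ Unit → R => s (fun a => w (Sum.inl a))) := by
  obtain ⟨a, ha⟩ := hs
  exact ⟨a.relabel Sum.inl, fun v => by
    rw [Term.realize_relabel, ha]; rfl⟩

theorem DefP.eq {s t : (α → R) → R} (hs : DefT s) (ht : DefT t) : DefP (fun v => s v = t v) := by
  obtain ⟨a, ha⟩ := hs
  obtain ⟨b, hb⟩ := ht
  exact ⟨Term.equal a b, fun v => by simp [ha, hb]⟩

theorem DefP.not {P : (α → R) → Prop} (hP : DefP P) : DefP (fun v => ¬ P v) := by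
  obtain ⟨a, ha⟩ := hP
  exact ⟨a.not, fun v => by simp [ha]⟩

theorem DefP.imp {P Q : (α → R) → Prop} (hP : DefP P) (hQ : DefP Q) :
    DefP (fun v => P v → Q v) := by
  obtain ⟨a, ha⟩ := hP
  obtain ⟨b, hb⟩ := hQ
  exact ⟨a.imp b, fun v => by simp [ha, hb]⟩

theorem DefP.and {P Q : (α → R) → Prop} (hP : DefP P) (hQ : DefP Q) :
    DefP (fun v => P v ∧ Q v) := by
  obtain ⟨a, ha⟩ := hP
  obtain ⟨b, hb⟩ := hQ
  exact ⟨a ⊓ b, fun v => by simp [ha, hb]⟩

theorem DefP.or {P Q : (α → R) → Prop} (hP : DefP P) (hQ : DefP Q) :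
    DefP (fun v => P v ∨ Q v) := by
  obtain ⟨a, ha⟩ := hP
  obtain ⟨b, hb⟩ := hQ
  exact ⟨a ⊔ b, fun v => by simp [ha, hb]⟩

theorem DefP.ex {P : (α → R) → R → Prop}
    (hP : DefP (fun w : α ⊕ Unit → R => P (fun a => w (Sum.inl a)) (w (Sum.inr ())))) :
    DefP (fun v => ∃ x, P v x) := by
  obtain ⟨a, ha⟩ := hP
  refine ⟨a.iExs Unit, fun v => ?_⟩
  rw [Formula.realize_iExs]
  constructor
  · rintro ⟨i, hi⟩
    exact ⟨i (), (ha _).1 hi⟩
  · rintro ⟨x, hx⟩
    exact ⟨fun _ => x, (ha _).2 hx⟩

theorem DefP.all {P : (α → R) → R → Prop}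
    (hP : DefP (fun w : α ⊕ Unit → R => P (fun a => w (Sum.inl a)) (w (Sum.inr ())))) :
    DefP (fun v => ∀ x, P v x) := by
  obtain ⟨a, ha⟩ := hP
  refine ⟨a.iAlls Unit, fun v => ?_⟩
  rw [Formula.realize_iAlls]
  constructor
  · intro h x
    exact (ha _).1 (h fun _ => x)
  · intro h i
    exact (ha _).2 (h (i ()))

theorem DefP.congr {P Q : (α → R) → Prop} (hP : DefP P) (h : ∀ v, P v ↔ Q v) : DefP Q := by
  obtain ⟨a, ha⟩ := hP
  exact ⟨a, fun v => (ha v).trans (h v)⟩

/-- substitution of terms for the variables -/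
theorem DefP.subst {β : Type} {P : (β → R) → Prop} (hP : DefP P) (t : β → (α → R) → R)
    (ht : ∀ b, DefT (t b)) : DefP (fun v => P (fun b => t b v)) := by
  obtain ⟨a, ha⟩ := hP
  choose τ hτ using ht
  refine ⟨BoundedFormula.subst a τ, fun v => ?_⟩
  beta_reduce
  rw [← ha]
  unfold Formula.Realize
  rw [BoundedFormula.realize_subst]
  simp only [hτ]

theorem DefP.app1 {P : R → Prop} (hP : DefP (fun v : Fin 1 → R => P (v 0)))
    {a : (α → R) → R} (ha : DefT a) : DefP (fun v => P (a v)) :=
  hP.subst ![a] (by intro b; fin_cases b; exact ha)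

theorem DefP.app2 {P : R → R → Prop} (hP : DefP (fun v : Fin 2 → R => P (v 0) (v 1)))
    {a b : (α → R) → R} (ha : DefT a) (hb : DefT b) : DefP (fun v => P (a v) (b v)) :=
  hP.subst ![a, b] (by intro b; fin_cases b <;> assumption)

theorem DefP.app3 {P : R → R → R → Prop} (hP : DefP (fun v : Fin 3 → R => P (v 0) (v 1) (v 2)))
    {a b c : (α → R) → R} (ha : DefT a) (hb : DefT b) (hc : DefT c) :
    DefP (fun v => P (a v) (b v) (c v)) :=
  hP.subst ![a, b, c] (by intro b; fin_cases b <;> assumption)

theorem DefP.app4 {P : R → R → R → R → Prop}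
    (hP : DefP (fun v : Fin 4 → R => P (v 0) (v 1) (v 2) (v 3)))
    {a b c d : (α → R) → R} (ha : DefT a) (hb : DefT b) (hc : DefT c) (hd : DefT d) :
    DefP (fun v => P (a v) (b v) (c v) (d v)) :=
  hP.subst ![a, b, c, d] (by intro b; fin_cases b <;> assumption)

end framework

section preds

variable {R : Type} [CommRing R]

/-- unit -/
def Un (x : R) : Prop := ∃ y, x * y = 1

/-- divisibility -/
def Dv (x y : R) : Prop := ∃ c, y = x * c

/-- irreducible -/
def Ir (p : R) : Prop := ¬ Un p ∧ ∀ a b, p = a * b → Un a ∨ Un b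

/-- omits the values one and minus one -/
def Om (y : R) : Prop := Un (y * y - 1)

/-- at the point `p`, `y` vanishes at least to the order of `F` -/
def Od (p F y : R) : Prop := ∃ w, ¬ Dv p w ∧ Dv F (y * w)

/-- the set coded by the parameters `F G H` -/
def Cd (F G H x : R) : Prop :=
  (Om x ∨ x = 1 ∨ x = -1) ∧
    ∀ y, Om y → (∀ p, Ir p → Dv p H → Od p F (x - G) → Od p F y) → y = 0

/-- constants -/
def Cn (f : R) : Prop :=
  ∃ F G H, (Cd F G H 1 ∧ (∃ i, Cd F G H i ∧ i * i = -1) ∧
    (∀ x y, Cd F G H x → Cd F G H y → Cd F G H (x - y)) ∧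
    (∀ x, Cd F G H x → ∃ y, Cd F G H y ∧ y + y = x)) ∧
    ∀ e, Cd F G H e → Un (f - e) ∨ f = e

/-- the constant `c` is a value of `g` -/
def Im (g c : R) : Prop := Cn c ∧ ¬ Un (g - c)

/-- the image of `g` is the unit disc -/
def Co (g : R) : Prop :=
  ¬ g = 0 ∧ Im g 0 ∧ ¬ Im g 1 ∧ (∀ c d, Im g c → Im g d → Im g (c * d)) ∧
    ∀ c, Cn c → Im g c ∨ ∀ d, Im g d → ∃ e, Im g e ∧ d = c * e

/-- constants of modulus less than one -/
def Sm (c : R) : Prop := ∃ g, Co g ∧ Im g c

/-- comparison of moduli of constants -/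
def Le (u v : R) : Prop := ¬ (¬ u = 0 ∧ ∃ c, Sm c ∧ v = c * u)

/-- the value of `x` at `p` has modulus at most that of the value of `y` at `q` -/
def La (p x q y : R) : Prop :=
  ∀ u v, Cn u → Cn v → Dv p (x - u) → Dv q (y - v) → Le u v

/-- the differential equation `(1 - g) dP = a P dg` -/
def Oe (g P a : R) : Prop :=
  ∀ p u v, Ir p → Cn u → Cn v → Dv p (g - u) → Dv p (P - v) →
    Dv (p * p) ((1 - u) * (P - v) - a * v * (g - u))

/-- `h` is a zero-free majorant of `1` and `f` on the region where `g` has modulus at most `r` -/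
def Mj (g r h f : R) : Prop :=
  Un h ∧ ∀ p, Ir p → La p g p r → La p 1 p h ∧ La p f p h

/-- not admissible -/
def Na (f : R) : Prop :=
  ∃ g, (∀ p, Ir p → ¬ La p 1 p g) ∧ ∀ p, Ir p → ∃ P a, Cn a ∧ Oe g P a ∧
    ∀ r, Sm r → ∃ h, Mj g r h f ∧ ∃ q, Ir q ∧ La q g q r ∧ La p h q P

end preds

section defble

variable {R : Type} [CommRing R] [CompatibleRing R]

theorem defUn : DefP (fun v : Fin 1 → R => Un (v 0)) := by
  unfold Un
  repeat' first | exact DefT.var _ | exact DefT.one | apply DefT.mul | apply DefP.eq | apply DefP.ex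

theorem defDv : DefP (fun v : Fin 2 → R => Dv (v 0) (v 1)) := by
  unfold Dv
  repeat' first | exact DefT.var _ | exact DefT.one | apply DefT.mul | apply DefP.eq | apply DefP.ex

theorem defIr : DefP (fun v : Fin 1 → R => Ir (v 0)) := by
  unfold Ir
  repeat' first | exact DefT.var _ | exact DefT.one | apply DefT.mul | apply defUn.app1 | apply DefP.eq | apply DefP.not | apply DefP.and | apply DefP.or | apply DefP.imp | apply DefP.all

theorem defOm : DefP (fun v : Fin 1 → R => Om (v 0)) := by
  unfold Om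
  repeat' first | exact DefT.var _ | exact DefT.one | apply DefT.mul | apply DefT.sub | apply defUn.app1

theorem defOd : DefP (fun v : Fin 3 → R => Od (v 0) (v 1) (v 2)) := by
  unfold Od
  repeat' first | exact DefT.var _ | apply DefT.mul | apply defDv.app2 | apply DefP.not | apply DefP.and | apply DefP.ex

theorem defCd : DefP (fun v : Fin 4 → R => Cd (v 0) (v 1) (v 2) (v 3)) := by
  unfold Cd
  repeat' first | exact DefT.var _ | exact DefT.one | exact DefT.zero | apply DefT.neg | apply DefT.sub | apply defOm.app1 | apply defIr.app1 | apply defDv.app2 | apply defOd.app3 | apply DefP.eq | apply DefP.and | apply DefP.or | apply DefP.imp | apply DefP.all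

theorem defCn : DefP (fun v : Fin 1 → R => Cn (v 0)) := by
  unfold Cn
  repeat' first | exact DefT.var _ | exact DefT.one | apply DefT.neg | apply DefT.sub | apply DefT.add | apply DefT.mul | apply defUn.app1 | apply defCd.app4 | apply DefP.eq | apply DefP.and | apply DefP.or | apply DefP.imp | apply DefP.ex | apply DefP.all

theorem defIm : DefP (fun v : Fin 2 → R => Im (v 0) (v 1)) := by
  unfold Im
  repeat' first | exact DefT.var _ | apply DefT.sub | apply defUn.app1 | apply defCn.app1 | apply DefP.not | apply DefP.and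

theorem defCo : DefP (fun v : Fin 1 → R => Co (v 0)) := by
  unfold Co
  repeat' first | exact DefT.var _ | exact DefT.one | exact DefT.zero | apply DefT.mul | apply defIm.app2 | apply defCn.app1 | apply DefP.eq | apply DefP.not | apply DefP.and | apply DefP.or | apply DefP.imp | apply DefP.ex | apply DefP.all

theorem defSm : DefP (fun v : Fin 1 → R => Sm (v 0)) := by
  unfold Sm
  repeat' first | exact DefT.var _ | apply defIm.app2 | apply defCo.app1 | apply DefP.and | apply DefP.ex

theorem defLe : DefP (fun v : Fin 2 → R => Le (v 0) (v 1)) := by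
  unfold Le
  repeat' first | exact DefT.var _ | exact DefT.zero | apply DefT.mul | apply defSm.app1 | apply DefP.eq | apply DefP.not | apply DefP.and | apply DefP.ex

theorem defLa : DefP (fun v : Fin 4 → R => La (v 0) (v 1) (v 2) (v 3)) := by
  unfold La
  repeat' first | exact DefT.var _ | apply DefT.sub | apply defCn.app1 | apply defDv.app2 | apply defLe.app2 | apply DefP.imp | apply DefP.all

theorem defOe : DefP (fun v : Fin 3 → R => Oe (v 0) (v 1) (v 2)) := by
  unfold Oe
  repeat' first | exact DefT.var _ | exact DefT.one | apply DefT.sub | apply DefT.mul | apply defCn.app1 | apply defIr.app1 | apply defDv.app2 | apply DefP.imp | apply DefP.all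

theorem defMj : DefP (fun v : Fin 4 → R => Mj (v 0) (v 1) (v 2) (v 3)) := by
  unfold Mj
  repeat' first | exact DefT.var _ | exact DefT.one | apply defUn.app1 | apply defIr.app1 | apply defLa.app4 | apply DefP.and | apply DefP.imp | apply DefP.all

theorem defNa : DefP (fun v : Fin 1 → R => Na (v 0)) := by
  unfold Na
  repeat' first | exact DefT.var _ | exact DefT.one | apply defCn.app1 | apply defSm.app1 | apply defIr.app1 | apply defLa.app4 | apply defMj.app4 | apply defOe.app3 | apply DefP.not | apply DefP.and | apply DefP.imp | apply DefP.ex | apply DefP.all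

end defble

end Pool.Agent.H359Z.Adm
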