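import Pool.Agent.H359Z.Adm.Ring
import Pool.Agent.Helper503.WA

/-! Interpolation of jets along a sequence, and rigidity of functions omitting two values. -/

set_option autoImplicit false

namespace Pool.Agent.H359Z.Adm

open Metric Set Filter Topology

/-- the nodes -/
noncomputable def sk (k : ℕ) : ℝ := (2 * k + 1) / (2 * k + 3)

/-- the radii -/
noncomputable def rk (k : ℕ) : ℝ := (2 * k) / (2 * k + 3)

theorem sk_pos (k : ℕ) : 0 < sk k := by unfold sk; positivity

theorem sk_lt (k : ℕ) : sk k < 1 := by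
  unfold sk
  rw [div_lt_one (by positivity)]; linarith

theorem rk_lt (k : ℕ) : rk k < sk k := by
  unfold rk sk
  apply div_lt_div_of_pos_right _ (by positivity); linarith

theorem sk_mem (k : ℕ) : ((sk k : ℝ) : ℂ) ∈ DD := by
  rw [mem_DD, Complex.norm_real, Real.norm_of_nonneg (sk_pos k).le]; exact sk_lt k

theorem sk_inj {j k : ℕ} (h : sk j = sk k) : j = k := by
  unfold sk at h
  rw [div_eq_div_iff (by positivity) (by positivity)] at h
  have : (j : ℝ) = k := by nlinarith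
  exact_mod_cast this

theorem rk_mono {j k : ℕ} (h : j ≤ k) : rk j ≤ rk k := by
  unfold rk
  have : (j : ℝ) ≤ k := by exact_mod_cast h
  rw [div_le_div_iff₀ (by positivity) (by positivity)]; nlinarith

theorem exists_rk {t : ℝ} (ht : t < 1) : ∃ K, t < rk K := by
  obtain ⟨K, hK⟩ := exists_nat_gt (3 / (1 - t))
  refine ⟨K, ?_⟩
  unfold rk
  have h1 : 0 < 1 - t := by linarith
  rw [div_lt_iff₀ h1] at hK
  rw [lt_div_iff₀ (by positivity)]
  have : (0:ℝ) ≤ K := Nat.cast_nonneg K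
  nlinarith

theorem exists_HH : ∃ H : HR, ∀ a ∈ DD, ev a H = 0 ↔ ∃ k, a = (sk k : ℝ) := by
  have hne : ∀ z ∈ DD, (1:ℂ) - z ≠ 0 := by
    intro z hz h
    have : z = 1 := by linear_combination -h
    rw [this, mem_DD] at hz
    simp at hz
  have hd : DifferentiableOn ℂ (fun z : ℂ => Complex.cos (Real.pi / (1 - z))) DD := by
    apply DifferentiableOn.ccos
    exact (differentiableOn_const _).div (by fun_prop) hne
  obtain ⟨H, hH⟩ := exists_mk hd
  refine ⟨H, fun a ha => ?_⟩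
  rw [hH a ha, Complex.cos_eq_zero_iff]
  have hpi : (Real.pi : ℂ) ≠ 0 := by exact_mod_cast Real.pi_ne_zero
  constructor
  · rintro ⟨n, hn⟩
    have h1 := hne a ha
    have h2 : ((2 * n + 1 : ℝ) : ℂ) * (1 - a) = 2 := by
      push_cast
      field_simp at hn
      linear_combination -hn
    have h3 : (2 * n + 1 : ℝ) ≠ 0 := by
      intro h
      rw [h] at h2
      simp at h2
    have h3' : ((2 * n + 1 : ℝ) : ℂ) ≠ 0 := by exact_mod_cast h3
    have h4 : a = ((1 - 2 / (2 * n + 1) : ℝ) : ℂ) := by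
      rw [Complex.ofReal_sub, Complex.ofReal_div]
      field_simp
      push_cast at h2 ⊢
      linear_combination -h2
    have h5 : |(1 - 2 / (2 * n + 1) : ℝ)| < 1 := by
      rw [h4, mem_DD, Complex.norm_real, Real.norm_eq_abs] at ha
      exact ha
    rw [abs_lt] at h5
    have h6 : 0 < (2 * n + 1 : ℝ) := by
      by_contra h
      have : 2 / (2 * n + 1 : ℝ) ≤ 0 := div_nonpos_of_nonneg_of_nonpos (by norm_num) (not_lt.1 h)
      linarith
    have h7 : 1 < (2 * n + 1 : ℝ) := by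
      have : 2 / (2 * n + 1 : ℝ) < 2 := by linarith
      rw [div_lt_iff₀ h6] at this
      linarith
    have h8 : 0 < n := by
      have : (0:ℝ) < n := by linarith
      exact_mod_cast this
    obtain ⟨k, rfl⟩ : ∃ k : ℕ, n = k + 1 := ⟨(n - 1).toNat, by omega⟩
    refine ⟨k, ?_⟩
    rw [h4]
    congr 1
    unfold sk
    push_cast
    field_simp
    ring
  · rintro ⟨k, rfl⟩
    refine ⟨k + 1, ?_⟩
    have h1 : (1:ℂ) - (sk k : ℝ) = 2 / (2 * k + 3) := by
      unfold sk
      have : (2 * k + 3 : ℂ) ≠ 0 := by exact_mod_cast (by positivity : (2 * k + 3 : ℝ) ≠ 0)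
      push_cast
      field_simp
      ring
    rw [h1]
    have : (2 * k + 3 : ℂ) ≠ 0 := by exact_mod_cast (by positivity : (2 * k + 3 : ℝ) ≠ 0)
    push_cast
    field_simp
    ring

theorem sum_mk (a : ℕ → HR) (ha : ∀ k z, ‖z‖ ≤ rk k → ‖ev z (a k)‖ ≤ (1/2) ^ k) :
    ∃ G : HR, ∀ z ∈ DD, HasSum (fun k => ev z (a k)) (ev z G) := by
  have key : ∀ K, ∃ u : ℕ → ℝ, Summable u ∧ ∀ k, ∀ w ∈ ball (0:ℂ) (rk K), ‖ev w (a k)‖ ≤ u k := by
    intro K
    choose B hB using fun k => bdd_on (a k) ((rk_lt K).trans (sk_lt K))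
    refine ⟨fun k => if k < K then B k else (1/2) ^ k, ?_, ?_⟩
    · rw [← summable_nat_add_iff K]
      have : (fun n => if n + K < K then B (n + K) else (1/2:ℝ) ^ (n + K)) =
          fun n => (1/2:ℝ) ^ (n + K) := by
        funext n
        rw [if_neg (by omega)]
      rw [this, summable_nat_add_iff (f := fun n => (1/2:ℝ) ^ n) K]
      exact summable_geometric_two
    · intro k w hw
      rw [mem_ball_zero_iff] at hw
      beta_reduce
      split_ifs with h
      · exact (hB k).2 w hw.le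
      · exact ha k w (hw.le.trans (rk_mono (not_lt.1 h)))
  have hd : DifferentiableOn ℂ (fun z => ∑' k, ev z (a k)) DD := by
    intro z hz
    obtain ⟨K, hK⟩ := exists_rk (mem_DD.1 hz)
    obtain ⟨u, hu, hb⟩ := key K
    have hsub : ball (0:ℂ) (rk K) ⊆ DD := ball_subset_ball ((rk_lt K).trans (sk_lt K)).le
    have := Complex.differentiableOn_tsum_of_summable_norm (F := fun k z => ev z (a k)) hu
      (fun k => (diff (a k)).mono hsub) isOpen_ball hb
    exact (this.differentiableAt (isOpen_ball.mem_nhds (mem_ball_zero_iff.2 hK))).differentiableWithinAt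
  obtain ⟨G, hG⟩ := exists_mk hd
  refine ⟨G, fun z hz => ?_⟩
  rw [hG z hz]
  obtain ⟨K, hK⟩ := exists_rk (mem_DD.1 hz)
  obtain ⟨u, hu, hb⟩ := key K
  exact (Summable.of_norm_bounded hu (fun k => hb k z (mem_ball_zero_iff.2 hK))).hasSum

/-- small factors -/
noncomputable def ph (n : ℕ → ℕ) (j : ℕ) : HR := (CC (1/2) * zc (sk j)) ^ n j

theorem ph_le (n : ℕ → ℕ) (j : ℕ) {z : ℂ} (hz : z ∈ DD) : ‖ev z (ph n j)‖ ≤ 1 := by
  unfold ph
  rw [map_pow, norm_pow, map_mul, ev_zc hz, ev_CC, norm_mul]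
  apply pow_le_one₀ (by positivity)
  have h1 := norm_sub_le z (sk j : ℝ)
  have h2 := mem_DD.1 hz
  have h3 := mem_DD.1 (sk_mem j)
  have : ‖(1/2 : ℂ)‖ = 1/2 := by simp
  rw [this]; linarith

theorem prod_ph_le (n : ℕ → ℕ) (S : Finset ℕ) {z : ℂ} (hz : z ∈ DD) :
    ‖ev z (∏ j ∈ S, ph n j)‖ ≤ 1 := by
  rw [map_prod, norm_prod]
  exact Finset.prod_le_one (fun _ _ => norm_nonneg _) (fun j _ => ph_le n j hz)

theorem dvd_ph (n : ℕ → ℕ) (j : ℕ) : zc (sk j) ^ n j ∣ ph n j := by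
  unfold ph
  rw [mul_pow]
  exact Dvd.intro_left _ rfl

theorem ph_ne (n : ℕ → ℕ) {j k : ℕ} (h : j ≠ k) : ev (sk k) (ph n j) ≠ 0 := by
  unfold ph
  rw [map_pow, map_mul, ev_zc (sk_mem k), ev_CC]
  apply pow_ne_zero
  apply mul_ne_zero (by norm_num)
  intro h'
  apply h
  apply sk_inj
  have : ((sk k : ℝ) : ℂ) = (sk j : ℝ) := by linear_combination h'
  exact_mod_cast this.symm

theorem step (n : ℕ) {r s : ℝ} (hs : ((s : ℝ) : ℂ) ∈ DD) (hrs : r < s) (P τ : HR)
    (hP : ev s P ≠ 0) (hP1 : ∀ z ∈ DD, ‖ev z P‖ ≤ 1) {ε : ℝ} (hε : 0 < ε) :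
    ∃ u : HR, zc s ^ n ∣ P * u - τ ∧ ∀ z, ‖z‖ ≤ r → ‖ev z u‖ ≤ ε := by
  have hs1 : s < 1 := by
    have := mem_DD.1 hs
    rw [Complex.norm_real, Real.norm_eq_abs] at this
    exact (abs_lt.1 this).2
  obtain ⟨B, hB0, hB⟩ := bdd_on τ (hrs.trans hs1)
  set δ : ℝ := min 1 (ε / ((n * 2 ^ n + 1) * B)) with hδ
  have hδ0 : 0 < δ := by positivity
  have hPn : 0 < ‖ev s P‖ := norm_pos_iff.2 hP
  obtain ⟨N, hN⟩ : ∃ N : ℝ, 0 ≤ N ∧ Real.exp (N * (r - s)) ≤ δ * ‖ev s P‖ := by
    have h1 : Tendsto (fun N : ℝ => Real.exp (N * (r - s))) atTop (𝓝 0) :=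
      Real.tendsto_exp_atBot.comp (tendsto_id.atTop_mul_const_of_neg (by linarith))
    exact ((eventually_ge_atTop 0).and (h1.eventually (ge_mem_nhds (by positivity)))).exists
  obtain ⟨e, he⟩ := exists_mk (f := fun z : ℂ => Complex.exp (N * (z - s)) / ev s P) (by fun_prop)
  have hsmall : ∀ z, ‖z‖ ≤ r → ‖ev z e‖ ≤ δ := by
    intro z hz
    have hz' : z ∈ DD := mem_DD.2 (by linarith)
    rw [he z hz', norm_div, div_le_iff₀ hPn, Complex.norm_exp]
    refine le_trans (Real.exp_le_exp.2 ?_) hN.2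
    have : (N * (z - s) : ℂ).re = N * (z.re - s) := by simp
    rw [this]
    have := (Complex.re_le_norm z).trans hz
    exact mul_le_mul_of_nonneg_left (by linarith) hN.1
  refine ⟨e * (∑ i ∈ Finset.range n, (1 - P * e) ^ i) * τ, ?_, ?_⟩
  · have h1 : zc s ∣ 1 - P * e := by
      rw [zc_dvd hs, map_sub, map_mul, he _ hs]
      simp [hP]
    have h2 := mul_neg_geom_sum (1 - P * e) n
    have h3 : P * (e * (∑ i ∈ Finset.range n, (1 - P * e) ^ i) * τ) - τ =
        (1 - P * e) ^ n * (-τ) := by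
      linear_combination τ * h2
    rw [h3]
    exact (pow_dvd_pow_of_dvd h1 n).mul_right _
  · intro z hz
    have hz' : z ∈ DD := mem_DD.2 (by linarith)
    have h1 : ‖ev z (1 - P * e)‖ ≤ 2 := by
      rw [map_sub, map_mul, map_one]
      have h2 := norm_sub_le (1:ℂ) (ev z P * ev z e)
      rw [norm_mul, norm_one] at h2
      have h3 : ‖ev z e‖ ≤ 1 := (hsmall z hz).trans (min_le_left _ _)
      have h4 := hP1 z hz'
      nlinarith [norm_nonneg (ev z P), norm_nonneg (ev z e)]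
    have h2 : ‖ev z (∑ i ∈ Finset.range n, (1 - P * e) ^ i)‖ ≤ n * 2 ^ n + 1 := by
      rw [map_sum]
      refine (norm_sum_le _ _).trans ?_
      have : ∀ i ∈ Finset.range n, ‖ev z ((1 - P * e) ^ i)‖ ≤ 2 ^ n := by
        intro i hi
        rw [map_pow, norm_pow]
        exact (pow_le_pow_left₀ (norm_nonneg _) h1 i).trans
          (pow_le_pow_right₀ (by norm_num) (Finset.mem_range.1 hi).le)
      have := Finset.sum_le_card_nsmul _ _ _ this
      simp only [Finset.card_range, nsmul_eq_mul] at this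
      linarith
    rw [map_mul, map_mul, norm_mul, norm_mul]
    have h3 : ‖ev z e‖ ≤ ε / ((n * 2 ^ n + 1) * B) := (hsmall z hz).trans (min_le_right _ _)
    calc _ ≤ ε / ((n * 2 ^ n + 1) * B) * (n * 2 ^ n + 1) * B := by
          gcongr
          exact hB z hz
      _ = ε := by field_simp

theorem interp (n : ℕ → ℕ) (q : ℕ → HR) : ∃ G : HR, ∀ k, zc (sk k) ^ n k ∣ G - q k := by
  classical
  have hstep := fun (k : ℕ) (τ : HR) => step (n k) (sk_mem k) (rk_lt k)
    (∏ j ∈ Finset.range k, ph n j) τ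
    (by
      rw [map_prod, Finset.prod_ne_zero_iff]
      intro j hj
      exact ph_ne n (Finset.mem_range.1 hj).ne)
    (fun z hz => prod_ph_le n _ hz) (ε := (1/2) ^ k) (by positivity)
  choose U hU1 hU2 using hstep
  let S : ℕ → HR := fun k => Nat.rec 0
    (fun k s => s + (∏ j ∈ Finset.range k, ph n j) * U k (q k - s)) k
  let u : ℕ → HR := fun k => U k (q k - S k)
  let a : ℕ → HR := fun k => (∏ j ∈ Finset.range k, ph n j) * u k
  have hS : ∀ k, S k = ∑ j ∈ Finset.range k, a j := by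
    intro k
    induction k with
    | zero => rfl
    | succ k ih => rw [Finset.sum_range_succ, ← ih]
  have hb : ∀ (T : ℕ → Finset ℕ) k z, ‖z‖ ≤ rk k →
      ‖ev z ((∏ j ∈ T k, ph n j) * u k)‖ ≤ (1/2) ^ k := by
    intro T k z hz
    have hz' : z ∈ DD := mem_DD.2 (hz.trans_lt ((rk_lt k).trans (sk_lt k)))
    rw [map_mul, norm_mul]
    have h1 := prod_ph_le n (T k) hz'
    have h2 := hU2 k (q k - S k) z hz
    exact (mul_le_mul h1 h2 (norm_nonneg _) zero_le_one).trans (one_mul _).le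
  obtain ⟨G, hG⟩ := sum_mk a (hb _)
  refine ⟨G, fun j => ?_⟩
  let b : ℕ → HR := fun k => if k < j + 1 then 0 else
    (∏ i ∈ (Finset.range k).erase j, ph n i) * u k
  obtain ⟨W, hW⟩ := sum_mk b (by
    intro k z hz
    simp only [b]
    split_ifs
    · simp
    · exact hb (fun k => (Finset.range k).erase j) k z hz)
  have hGW : G = S (j + 1) + ph n j * W := by
    refine ext' fun z hz => (hG z hz).unique ?_
    rw [map_add, map_mul, hS (j + 1), map_sum]
    have h1 : HasSum (fun k => if k < j + 1 then ev z (a k) else 0)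
        (∑ k ∈ Finset.range (j + 1), ev z (a k)) := by
      have : ∑ k ∈ Finset.range (j + 1), ev z (a k) =
          ∑ k ∈ Finset.range (j + 1), if k < j + 1 then ev z (a k) else 0 :=
        Finset.sum_congr rfl fun k hk => by rw [if_pos (Finset.mem_range.1 hk)]
      rw [this]
      apply hasSum_sum_of_ne_finset_zero
      intro k hk
      rw [if_neg (by simpa using hk)]
    have h2 := h1.add ((hW z hz).mul_left (ev z (ph n j)))
    convert h2 using 2 with k
    simp only [b]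
    split_ifs with h
    · simp
    · rw [zero_add, ← map_mul, ← mul_assoc, Finset.mul_prod_erase _ _ (Finset.mem_range.2 (by omega))]
  have h3 : G - q j = ((∏ i ∈ Finset.range j, ph n i) * U j (q j - S j) - (q j - S j)) +
      ph n j * W := by
    rw [hGW]
    show S j + (∏ i ∈ Finset.range j, ph n i) * U j (q j - S j) + _ - _ = _
    ring
  rw [h3]
  exact dvd_add (hU1 j _) ((dvd_ph n j).mul_right _)

theorem blaschke {x : HR} {s ρ t M : ℝ} {m : ℕ} (ht : 0 ≤ t) (hts : t ≤ s) (hs : s < ρ)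
    (hρ : ρ < 1) (hd : zc s ^ m ∣ x) (hM : ∀ z, ‖z‖ = ρ → ‖ev z x‖ ≤ M) :
    ‖ev t x‖ ≤ M * (s / ρ) ^ m := by
  obtain ⟨h, rfl⟩ := hd
  have hρ0 : 0 < ρ := by linarith
  have hsub : closure (ball (0:ℂ) ρ) ⊆ DD := by
    rw [closure_ball _ hρ0.ne']
    exact closedBall_subset_ball hρ
  have hdc : DiffContOnCl ℂ (fun z => ev z h * ((ρ:ℂ) ^ 2 - s * z) ^ m) (ball 0 ρ) :=
    DifferentiableOn.diffContOnCl (((diff h).mono hsub).mul (by fun_prop))
  have htm : ((t:ℝ):ℂ) ∈ closure (ball (0:ℂ) ρ) := by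
    apply subset_closure
    rw [mem_ball_zero_iff, Complex.norm_real, Real.norm_of_nonneg ht]; linarith
  have key := Complex.norm_le_of_forall_mem_frontier_norm_le isBounded_ball hdc
    (C := ρ ^ m * M) (by
      intro z hz
      rw [frontier_ball _ hρ0.ne', mem_sphere_zero_iff_norm] at hz
      have hz' : z ∈ DD := mem_DD.2 (by linarith)
      have h1 : (ρ:ℂ) ^ 2 - s * z = z * (starRingEnd ℂ) (z - s) := by
        rw [map_sub, Complex.conj_ofReal, mul_sub, Complex.mul_conj, Complex.normSq_eq_norm_sq, hz]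
        push_cast; ring
      have h2 := hM z hz
      rw [map_mul, map_pow, ev_zc hz', norm_mul, norm_pow] at h2
      rw [h1, norm_mul, norm_pow, norm_mul, Complex.norm_conj, hz, mul_pow]
      calc _ = ρ ^ m * (‖z - s‖ ^ m * ‖ev z h‖) := by ring
        _ ≤ _ := by gcongr) htm
  have e1 : (ρ:ℂ) ^ 2 - s * t = ((ρ ^ 2 - s * t : ℝ) : ℂ) := by push_cast; ring
  have hp : 0 ≤ ρ ^ 2 - s * t := by nlinarith
  rw [norm_mul, norm_pow, e1, Complex.norm_real, Real.norm_of_nonneg hp] at key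
  have e2 : ((t:ℝ):ℂ) - s = ((t - s : ℝ) : ℂ) := by push_cast; ring
  rw [map_mul, map_pow, ev_zc (hsub htm), norm_mul, norm_pow, e2, Complex.norm_real,
    Real.norm_eq_abs, abs_sub_comm, abs_of_nonneg (by linarith)]
  have h3 : (s - t) * ρ ≤ s / ρ * (ρ ^ 2 - s * t) := by
    rw [div_mul_eq_mul_div, le_div_iff₀ hρ0]
    have : s ^ 2 ≤ ρ ^ 2 := by nlinarith
    nlinarith
  have h4 : ((s - t) * ρ) ^ m ≤ (s / ρ * (ρ ^ 2 - s * t)) ^ m :=
    pow_le_pow_left₀ (by nlinarith) h3 m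
  rw [mul_pow, mul_pow] at h4
  have h5 : 0 ≤ (s / ρ) ^ m := pow_nonneg (div_nonneg (by linarith) hρ0.le) m
  have hρm : 0 < ρ ^ m := by positivity
  apply le_of_mul_le_mul_right _ hρm
  calc (s - t) ^ m * ‖ev t h‖ * ρ ^ m = (s - t) ^ m * ρ ^ m * ‖ev t h‖ := by ring
    _ ≤ (s / ρ) ^ m * (ρ ^ 2 - s * t) ^ m * ‖ev t h‖ := by gcongr
    _ = (s / ρ) ^ m * (‖ev t h‖ * (ρ ^ 2 - s * t) ^ m) := by ring
    _ ≤ (s / ρ) ^ m * (ρ ^ m * M) := by gcongr
    _ = _ := by ring

theorem om_iff {y : HR} : Om y ↔ ∀ z ∈ DD, ev z y ≠ 1 ∧ ev z y ≠ -1 := by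
  unfold Om
  rw [un_iff]
  refine forall₂_congr fun z _ => ?_
  rw [map_sub, map_mul, map_one, ne_eq, sub_eq_zero, mul_self_eq_one_iff, not_or]

theorem rigid : ∃ m : ℕ → ℕ, (∀ k, 0 < m k) ∧ ∀ y : HR, Om y → ∀ c : ℕ → ℂ,
    (∃ᶠ k in atTop, zc (sk k) ^ m k ∣ y - CC (c k)) → ∃ c, y = CC c := by
  let ρ : ℕ → ℝ := fun k => (1 + sk k) / 2
  have hρ1 : ∀ k, sk k < ρ k := fun k => by have := sk_lt k; simp only [ρ]; linarith
  have hρ2 : ∀ k, ρ k < 1 := fun k => by have := sk_lt k; simp only [ρ]; linarith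
  let Φ : ℕ → ℝ := fun k => Real.exp (Real.pi * Real.exp (Real.pi * ((194 + k) / (1 - ρ k))))
  have hm : ∀ k, ∃ m : ℕ, 0 < m ∧ 2 * Φ k * (sk k / ρ k) ^ m ≤ 1 / ((k:ℝ) + 1) := by
    intro k
    have h0 : 0 < ρ k := (sk_pos k).trans (hρ1 k)
    have h1 : Tendsto (fun m : ℕ => 2 * Φ k * (sk k / ρ k) ^ m) atTop (𝓝 (2 * Φ k * 0)) :=
      (tendsto_pow_atTop_nhds_zero_of_lt_one (div_nonneg (sk_pos k).le h0.le)
        ((div_lt_one h0).2 (hρ1 k))).const_mul _
    rw [mul_zero] at h1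
    exact ((eventually_gt_atTop 0).and (h1.eventually (ge_mem_nhds (by positivity)))).exists
  choose m hm0 hm using hm
  refine ⟨m, hm0, fun y hy c hc => ?_⟩
  rw [om_iff] at hy
  have hsch := Helper503.WAC.schottkyU (diff y) (fun z hz => (hy z hz).1) (fun z hz => (hy z hz).2)
  have hbd : ∀ k : ℕ, ‖ev 0 y‖ ≤ k → ∀ z, ‖z‖ ≤ ρ k → ‖ev z y‖ ≤ Φ k := by
    intro k hk z hz
    refine (hsch z (mem_DD.2 (hz.trans_lt (hρ2 k)))).trans ?_
    simp only [Φ]
    have := hρ2 k
    gcongr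
  have hest : ∀ k : ℕ, ‖ev 0 y‖ ≤ k → zc (sk k) ^ m k ∣ y - CC (c k) → ∀ t : ℝ, 0 ≤ t →
      t ≤ sk k → ‖ev t y - c k‖ ≤ 1 / ((k:ℝ) + 1) := by
    intro k hk hd t ht hts
    have hck : c k = ev (sk k) y := by
      have := (zc_dvd (sk_mem k)).1 ((dvd_pow_self _ (hm0 k).ne').trans hd)
      rw [map_sub, ev_CC, sub_eq_zero] at this
      exact this.symm
    have hck' : ‖c k‖ ≤ Φ k := by
      rw [hck]
      apply hbd k hk
      rw [Complex.norm_real, Real.norm_of_nonneg (sk_pos k).le]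
      exact (hρ1 k).le
    have := blaschke ht hts (hρ1 k) (hρ2 k) hd (M := 2 * Φ k) (by
      intro z hz
      rw [map_sub, ev_CC]
      have := norm_sub_le (ev z y) (c k)
      have := hbd k hk z hz.le
      linarith)
    rw [map_sub, ev_CC] at this
    exact this.trans (hm k)
  have hsk : ∀ k, 1/3 ≤ sk k := by
    intro k
    unfold sk
    rw [div_le_div_iff₀ (by norm_num) (by positivity)]
    have : (0:ℝ) ≤ k := Nat.cast_nonneg k
    linarith
  have hconst : ∀ t : ℝ, 0 ≤ t → t ≤ 1/3 → ev t y = ev 0 y := by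
    intro t ht ht'
    rw [← sub_eq_zero, ← norm_le_zero_iff]
    apply le_of_forall_pos_le_add
    intro ε hε
    have h1 : ∀ᶠ k : ℕ in atTop, ‖ev 0 y‖ ≤ k :=
      tendsto_natCast_atTop_atTop.eventually (eventually_ge_atTop _)
    have h2 : ∀ᶠ k : ℕ in atTop, 1 / ((k:ℝ) + 1) ≤ ε / 2 :=
      tendsto_one_div_add_atTop_nhds_zero_nat.eventually (ge_mem_nhds (by positivity))
    obtain ⟨k, hk, hk1, hk2⟩ := (hc.and_eventually (h1.and h2)).exists
    have a1 := hest k hk1 hk t ht (ht'.trans (hsk k))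
    have a2 := hest k hk1 hk 0 le_rfl (sk_pos k).le
    have a3 := norm_sub_le (ev t y - c k) (ev (0:ℝ) y - c k)
    rw [Complex.ofReal_zero] at a2 a3
    rw [sub_sub_sub_cancel_right] at a3
    linarith
  refine ⟨ev 0 y, ext' fun z hz => ?_⟩
  have := (anal y).eqOn_of_preconnected_of_frequently_eq (analyticOnNhd_const (v := ev 0 y))
    (convex_ball _ _).isPreconnected zero_mem_DD (by
      have ht : Tendsto (fun n : ℕ => ((1 / ((n:ℝ) + 1) : ℝ) : ℂ)) atTop (𝓝[≠] 0) := by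
        rw [tendsto_nhdsWithin_iff]
        constructor
        · have := (Complex.continuous_ofReal.tendsto 0).comp tendsto_one_div_add_atTop_nhds_zero_nat
          simpa [Function.comp_def] using this
        · refine Eventually.of_forall fun n => ?_
          simp only [mem_compl_iff, mem_singleton_iff, Complex.ofReal_eq_zero]
          positivity
      apply ht.frequently
      apply Eventually.frequently
      have h2 : ∀ᶠ k : ℕ in atTop, 1 / ((k:ℝ) + 1) ≤ 1 / 3 :=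
        tendsto_one_div_add_atTop_nhds_zero_nat.eventually (ge_mem_nhds (by positivity))
      filter_upwards [h2] with n hn
      exact hconst _ (by positivity) hn)
  simpa using this hz

end Pool.Agent.H359Z.Adm
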