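import Pool.Agent.H359Z.Adm.Const

/-! The formula `Na` says that the characteristic is `O (log (1 / (1 - r)))`. -/

set_option autoImplicit false

namespace Pool.Agent.H359Z.Adm

open Metric Set Filter Topology Real

/-- the Nevanlinna characteristic -/
noncomputable def TT (f : HR) (r : ℝ) : ℝ := circleAverage (fun z => posLog ‖ev z f‖) 0 r

theorem TT_nonneg (f : HR) (r : ℝ) : 0 ≤ TT f r :=
  circleAverage_nonneg_of_nonneg fun _ _ => posLog_nonneg

theorem cont_posLog (f : HR) {r : ℝ} (hr : r < 1) :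
    ContinuousOn (fun z => posLog ‖ev z f‖) (sphere 0 r) :=
  continuous_posLog.comp_continuousOn
    ((diff f).continuousOn.mono (sphere_subset_closedBall.trans (closedBall_subset_ball hr))).norm

theorem TT_le {f h : HR} {ρ : ℝ} (h0 : 0 ≤ ρ) (h1 : ρ < 1) (hne : ∀ z ∈ DD, ev z h ≠ 0)
    (hm : ∀ z, ‖z‖ ≤ ρ → 1 ≤ ‖ev z h‖ ∧ ‖ev z f‖ ≤ ‖ev z h‖) : TT f ρ ≤ log ‖ev 0 h‖ := by
  have hsub : closedBall (0:ℂ) |ρ| ⊆ DD := by
    rw [abs_of_nonneg h0]; exact closedBall_subset_ball h1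
  rw [← AnalyticOnNhd.circleAverage_log_norm_of_ne_zero ((anal h).mono hsub)
    (fun u hu => hne u (hsub hu))]
  apply circleAverage_mono ((cont_posLog f h1).circleIntegrable h0)
  · apply ContinuousOn.circleIntegrable'
    have hs := sphere_subset_closedBall.trans hsub
    exact ((diff h).continuousOn.mono hs).norm.log fun z hz => norm_ne_zero_iff.2 (hne z (hs hz))
  · intro z hz
    rw [mem_sphere_zero_iff_norm, abs_of_nonneg h0] at hz
    obtain ⟨a1, a2⟩ := hm z hz.le
    rw [← posLog_eq_log (by rwa [abs_norm])]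
    exact posLog_le_posLog (norm_nonneg _) a2

theorem gauge {g P : HR} {α : ℂ} (hg : ∀ a ∈ DD, ‖ev a g‖ < 1)
    (h : ∀ b ∈ DD, (1 - ev b g) * deriv (fun z => ev z P) b =
      α * ev b P * deriv (fun z => ev z g) b) :
    ∃ A B : ℝ, 0 ≤ B ∧ ∀ w ∈ DD, ∀ r : ℝ, r < 1 → ‖ev w g‖ ≤ r →
      ‖ev w P‖ ≤ exp (A + B * log (1 - r)⁻¹) := by
  have hslit : ∀ z ∈ DD, 1 - ev z g ∈ Complex.slitPlane := by
    intro z hz
    left
    have := (Complex.re_le_norm (ev z g)).trans_lt (hg z hz)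
    simp only [Complex.sub_re, Complex.one_re]; linarith
  have hder : ∀ z ∈ DD, HasDerivAt
      (fun z => ev z P * Complex.exp (α * Complex.log (1 - ev z g))) 0 z := by
    intro z hz
    have h1 := ((diff P).differentiableAt (isOpen_ball.mem_nhds hz)).hasDerivAt
    have h2 := ((diff g).differentiableAt (isOpen_ball.mem_nhds hz)).hasDerivAt
    have h3 := h1.mul (((h2.const_sub 1).clog (hslit z hz)).const_mul α).cexp
    have h4 : 1 - ev z g ≠ 0 := Complex.slitPlane_ne_zero (hslit z hz)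
    have h5 := h z hz
    refine HasDerivAt.congr_deriv h3 ?_
    field_simp
    linear_combination Complex.exp (α * Complex.log (1 - ev z g)) * h5
  obtain ⟨c, hc⟩ : ∃ c, ∀ z ∈ DD, ev z P * Complex.exp (α * Complex.log (1 - ev z g)) = c :=
    ⟨_, fun z hz => isOpen_ball.is_const_of_deriv_eq_zero (convex_ball _ _).isPreconnected
      (fun z hz => (hder z hz).differentiableAt.differentiableWithinAt)
      (fun z hz => (hder z hz).deriv) hz zero_mem_DD⟩
  refine ⟨‖c‖ + ‖α‖ * (1 + π), ‖α‖, norm_nonneg _, fun w hw r hr hwr => ?_⟩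
  have e : ev w P = c * Complex.exp (-(α * Complex.log (1 - ev w g))) := by
    rw [← hc w hw, mul_assoc, ← Complex.exp_add]; simp
  have hr0 : 0 ≤ r := (norm_nonneg _).trans hwr
  have hL : 0 ≤ log (1 - r)⁻¹ := log_nonneg (one_le_inv₀ (by linarith) |>.2 (by linarith))
  have hu1 : 1 - r ≤ ‖1 - ev w g‖ := by
    have := norm_sub_norm_le (1:ℂ) (ev w g)
    rw [norm_one] at this; linarith
  have hu2 : ‖1 - ev w g‖ ≤ 2 := by
    have := norm_sub_le (1:ℂ) (ev w g)
    rw [norm_one] at this; linarith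
  have hlog : ‖Complex.log (1 - ev w g)‖ ≤ log (1 - r)⁻¹ + 1 + π := by
    refine (Complex.norm_le_abs_re_add_abs_im _).trans ?_
    rw [Complex.log_re, Complex.log_im]
    have a1 := Complex.abs_arg_le_pi (1 - ev w g)
    have a2 : log (1 - r) ≤ log ‖1 - ev w g‖ := log_le_log (by linarith) hu1
    have a3 : log ‖1 - ev w g‖ ≤ 1 := by
      have := log_le_sub_one_of_pos (show 0 < ‖1 - ev w g‖ by linarith)
      linarith
    rw [log_inv] at hL ⊢
    have : |log ‖1 - ev w g‖| ≤ -log (1 - r) + 1 := by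
      rw [abs_le]; constructor <;> linarith
    linarith
  rw [e, norm_mul]
  have b1 : ‖c‖ ≤ exp ‖c‖ := by have := add_one_le_exp ‖c‖; linarith
  have b2 : ‖Complex.exp (-(α * Complex.log (1 - ev w g)))‖ ≤
      exp (‖α‖ * (log (1 - r)⁻¹ + 1 + π)) := by
    refine (Complex.norm_exp_le_exp_norm _).trans (exp_le_exp.2 ?_)
    rw [norm_neg, norm_mul]
    gcongr
  calc _ ≤ exp ‖c‖ * exp (‖α‖ * (log (1 - r)⁻¹ + 1 + π)) := by gcongr
    _ = _ := by rw [← exp_add]; congr 1; ring

theorem selfmap {g : HR} (hg : ∀ a ∈ DD, ‖ev a g‖ < 1) :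
    ∃ c : ℝ, 0 < c ∧ c ≤ 1 ∧ ∀ z ∈ DD, c * (1 - ‖z‖) ≤ 1 - ‖ev z g‖ := by
  have hγ : 0 < 1 - ‖ev 0 g‖ := by have := hg 0 zero_mem_DD; linarith
  set K : ℝ := 2 + 2 * (1 - ‖ev 0 g‖)⁻¹ with hK
  have hK1 : 1 ≤ K := by have := inv_pos.2 hγ; linarith
  refine ⟨K⁻¹, by positivity, inv_le_one_of_one_le₀ hK1, fun z hz => ?_⟩
  obtain ⟨ζ, hζ1, hζ⟩ := Complex.exists_norm_eq_mul_self (ev z g)
  have hre : ∀ w ∈ DD, 0 < (1 - ζ * ev w g).re := by
    intro w hw
    have := Complex.re_le_norm (ζ * ev w g)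
    rw [norm_mul, hζ1, one_mul] at this
    have := hg w hw
    rw [Complex.sub_re, Complex.one_re]; linarith
  have hne : ∀ w ∈ DD, 1 - ζ * ev w g ≠ 0 := fun w hw h => by
    have := hre w hw
    rw [h] at this; simp at this
  have hd : DifferentiableOn ℂ (fun w => -(1 - ζ * ev w g)⁻¹) DD :=
    ((((diff g).const_mul ζ).const_sub 1).inv hne).neg
  have key := Complex.borelCaratheodory one_pos hd (fun w hw => by
    have := hre w hw
    simp only [mem_ofPred_eq, Complex.neg_re, Complex.inv_re]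
    have : 0 ≤ (1 - ζ * ev w g).re / Complex.normSq (1 - ζ * ev w g) :=
      div_nonneg this.le (Complex.normSq_nonneg _)
    linarith) one_pos hz
  have hz1 : 0 < 1 - ‖z‖ := by have := mem_DD.1 hz; linarith
  have hgz : 0 < 1 - ‖ev z g‖ := by have := hg z hz; linarith
  have e1 : (1:ℂ) - ζ * ev z g = ((1 - ‖ev z g‖ : ℝ) : ℂ) := by rw [← hζ]; push_cast; ring
  have e2 : ‖-(1 - ζ * ev 0 g)⁻¹‖ ≤ (1 - ‖ev 0 g‖)⁻¹ := by
    rw [norm_neg, norm_inv]
    apply inv_anti₀ hγ
    have := norm_sub_norm_le (1:ℂ) (ζ * ev 0 g)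
    rwa [norm_one, norm_mul, hζ1, one_mul] at this
  rw [e1, norm_neg, norm_inv, Complex.norm_real, Real.norm_of_nonneg hgz.le, ← add_div,
    le_div_iff₀ hz1] at key
  have h3 : (1 - ‖ev z g‖)⁻¹ * (1 - ‖z‖) ≤ K := by
    refine key.trans ?_
    have := norm_nonneg z
    have := norm_nonneg (-(1 - ζ * ev 0 g)⁻¹)
    rw [hK]
    nlinarith
  rw [inv_mul_le_iff₀ hgz] at h3
  rw [inv_mul_le_iff₀ (by positivity)]
  linarith

theorem L_tendsto : Tendsto (fun r : ℝ => log (1 - r)⁻¹) (𝓝[<] 1) atTop := by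
  apply tendsto_log_atTop.comp
  apply tendsto_inv_nhdsGT_zero.comp
  rw [tendsto_nhdsWithin_iff]
  constructor
  · have : Continuous (fun r : ℝ => 1 - r) := by fun_prop
    simpa using (this.tendsto 1).mono_left nhdsWithin_le_nhds
  · filter_upwards [self_mem_nhdsWithin] with r hr
    simpa using hr

theorem bigO_of_naS {f : HR} (h : NaS f) :
    (TT f) =O[𝓝[<] 1] (fun r : ℝ => log (1 - r)⁻¹) := by
  obtain ⟨g, hg, h⟩ := h
  obtain ⟨P, α, h1, h2⟩ := h 0 zero_mem_DD
  obtain ⟨A, B, hB, hAB⟩ := gauge hg h1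
  obtain ⟨c, hc0, hc1, hc⟩ := selfmap hg
  apply Asymptotics.IsBigO.of_bound (|A + B * log c⁻¹| + B)
  have e1 : ∀ᶠ r : ℝ in 𝓝[<] 1, 0 < r := mem_nhdsWithin_of_mem_nhds (lt_mem_nhds one_pos)
  filter_upwards [self_mem_nhdsWithin, e1, L_tendsto.eventually (eventually_ge_atTop 1)]
    with ρ hρ1 hρ0 hL
  have hρ1' : ρ < 1 := hρ1
  set r : ℝ := 1 - c * (1 - ρ) with hr
  have hr0 : 0 ≤ r := by nlinarith
  have hr1 : r < 1 := by nlinarith
  have hn : ‖(r : ℂ)‖ = r := by rw [Complex.norm_real, Real.norm_of_nonneg hr0]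
  obtain ⟨h, ⟨h3, h4⟩, w, hw, h5, h6⟩ := h2 r (by rwa [hn])
  rw [hn] at h4 h5
  have h7 := TT_le hρ0.le hρ1' h3 (f := f) (fun z hz => by
    have hz' : z ∈ DD := mem_DD.2 (hz.trans_lt hρ1')
    apply h4 z hz'
    have := hc z hz'
    nlinarith)
  have h8 : log ‖ev 0 h‖ ≤ A + B * log (1 - r)⁻¹ := by
    rw [log_le_iff_le_exp (norm_pos_iff.2 (h3 0 zero_mem_DD))]
    exact h6.trans (hAB w hw r hr1 h5)
  have h9 : log (1 - r)⁻¹ = log c⁻¹ + log (1 - ρ)⁻¹ := by
    rw [← log_mul (by positivity) (inv_ne_zero (by linarith)), ← mul_inv]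
    congr 2
    rw [hr]; ring
  rw [Real.norm_of_nonneg (TT_nonneg _ _), Real.norm_of_nonneg (by linarith)]
  have := le_abs_self (A + B * log c⁻¹)
  have := abs_nonneg (A + B * log c⁻¹)
  rw [h9] at h8
  nlinarith

theorem trig_approx {u : ℂ → ℝ} {ρ : ℝ} (hρ : 0 < ρ) (hu : ContinuousOn u (sphere 0 ρ)) :
    ∃ q : ℂ → ℂ, Differentiable ℂ q ∧ ∀ z, ‖z‖ = ρ → |(q z).re - u z| ≤ 1/2 := by
  have : Fact ((0:ℝ) < 1) := ⟨one_pos⟩
  have hρc : (ρ:ℂ) ≠ 0 := by exact_mod_cast hρ.ne'
  let e : AddCircle (1:ℝ) → ℂ := fun x => ρ * (AddCircle.toCircle x : ℂ)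
  have he : Continuous e :=
    continuous_const.mul (continuous_subtype_val.comp AddCircle.continuous_toCircle)
  have hes : ∀ x, e x ∈ sphere (0:ℂ) ρ := by
    intro x
    simp [e, abs_of_pos hρ]
  let φ : C(AddCircle (1:ℝ), ℂ) :=
    ⟨fun x => (u (e x) : ℂ), Complex.continuous_ofReal.comp (hu.comp_continuous he hes)⟩
  have hφ : φ ∈ (Submodule.span ℂ (range (@fourier 1))).topologicalClosure := by
    rw [span_fourier_closure_eq_top]; trivial
  obtain ⟨ψ, hψ, hd⟩ := Metric.mem_closure_iff.1 hφ (1/2) (by norm_num)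
  have hrep : ∃ q1 q2 : ℂ → ℂ, Differentiable ℂ q1 ∧ Differentiable ℂ q2 ∧
      ∀ x, ψ x = q1 (e x) + (starRingEnd ℂ) (q2 (e x)) := by
    clear hd
    induction hψ using Submodule.span_induction with
    | mem ψ hψ =>
      obtain ⟨n, rfl⟩ := hψ
      have hk : ∀ (k : ℕ) x, fourier (k : ℤ) x = (e x / ρ) ^ k := by
        intro k x
        rw [fourier_apply, AddCircle.toCircle_zsmul, zpow_natCast, Circle.coe_pow]
        simp only [e]
        rw [mul_div_cancel_left₀ _ hρc]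
      obtain ⟨k, rfl | rfl⟩ := n.eq_nat_or_neg
      · exact ⟨fun z => (z / ρ) ^ k, fun _ => 0, by fun_prop, by fun_prop,
          fun x => by rw [hk]; simp⟩
      · exact ⟨fun _ => 0, fun z => (z / ρ) ^ k, by fun_prop, by fun_prop,
          fun x => by rw [fourier_neg, hk]; simp⟩
    | zero => exact ⟨fun _ => 0, fun _ => 0, by fun_prop, by fun_prop, fun x => by simp⟩
    | add a b _ _ ha hb =>
      obtain ⟨p1, p2, a1, a2, a3⟩ := ha
      obtain ⟨q1, q2, b1, b2, b3⟩ := hb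
      exact ⟨fun z => p1 z + q1 z, fun z => p2 z + q2 z, a1.add b1, a2.add b2,
        fun x => by rw [ContinuousMap.add_apply, a3, b3, map_add]; ring⟩
    | smul c a _ ha =>
      obtain ⟨p1, p2, a1, a2, a3⟩ := ha
      exact ⟨fun z => c * p1 z, fun z => (starRingEnd ℂ) c * p2 z, a1.const_mul _, a2.const_mul _,
        fun x => by
          rw [ContinuousMap.smul_apply, a3, map_mul, Complex.conj_conj, smul_eq_mul]; ring⟩
  obtain ⟨q1, q2, a1, a2, a3⟩ := hrep
  refine ⟨fun z => q1 z + q2 z, a1.add a2, fun z hz => ?_⟩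
  obtain ⟨x, rfl⟩ : ∃ x, e x = z := by
    refine ⟨((Complex.arg z / (2 * π) : ℝ) : AddCircle (1:ℝ)), ?_⟩
    simp only [e]
    rw [AddCircle.toCircle_apply_mk, Circle.coe_exp, ← hz]
    have : 2 * π / 1 * (Complex.arg z / (2 * π)) = Complex.arg z := by field_simp
    rw [this, Complex.norm_mul_exp_arg_mul_I]
  have h1 := (ContinuousMap.dist_apply_le_dist x).trans hd.le
  rw [dist_comm, dist_eq_norm, a3] at h1
  have h2 := (Complex.abs_re_le_norm _).trans h1
  simpa [φ] using h2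

theorem majorant (f : HR) {s : ℝ} (h0 : 0 < s) (h1 : s < 1) :
    ∃ q : ℂ → ℂ, Differentiable ℂ q ∧ (∀ z, ‖z‖ ≤ s → 0 ≤ (q z).re ∧ ‖ev z f‖ ≤ exp (q z).re) ∧
      (q 0).re ≤ TT f s + 1 := by
  obtain ⟨q0, hq0, hq⟩ := trig_approx h0 (cont_posLog f h1)
  let q : ℂ → ℂ := fun z => q0 z + 1/2
  have hd : Differentiable ℂ q := hq0.add_const _
  have hre : ∀ z, (q z).re = (q0 z).re + 1/2 := fun z => by simp [q]
  have hb : ∀ z, ‖z‖ = s → posLog ‖ev z f‖ ≤ (q z).re ∧ (q z).re ≤ posLog ‖ev z f‖ + 1 := by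
    intro z hz
    have := abs_le.1 (hq z hz)
    rw [hre]
    constructor <;> linarith [this.1, this.2]
  have hcl : closure (ball (0:ℂ) s) = closedBall 0 s := closure_ball _ h0.ne'
  have hmax : ∀ x : HR, (∀ z, ‖z‖ = s → ‖ev z x‖ ≤ exp (q z).re) →
      ∀ z, ‖z‖ ≤ s → ‖ev z x‖ ≤ exp (q z).re := by
    intro x hx z hz
    have hdc : DiffContOnCl ℂ (fun z => ev z x * Complex.exp (-q z)) (ball 0 s) := by
      apply DifferentiableOn.diffContOnCl
      rw [hcl]
      exact ((diff x).mono (closedBall_subset_ball h1)).mul hd.neg.cexp.differentiableOn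
    have := Complex.norm_le_of_forall_mem_frontier_norm_le isBounded_ball hdc (C := 1) (by
      intro w hw
      rw [frontier_ball _ h0.ne', mem_sphere_zero_iff_norm] at hw
      rw [norm_mul, Complex.norm_exp, Complex.neg_re, exp_neg, mul_inv_le_iff₀ (exp_pos _), one_mul]
      exact hx w hw) (z := z) (by rw [hcl]; simpa using hz)
    rwa [norm_mul, Complex.norm_exp, Complex.neg_re, exp_neg, mul_inv_le_iff₀ (exp_pos _),
      one_mul] at this
  refine ⟨q, hd, fun z hz => ⟨?_, ?_⟩, ?_⟩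
  · have := hmax 1 (fun w hw => by
      rw [map_one, norm_one]
      exact one_le_exp (posLog_nonneg.trans (hb w hw).1)) z hz
    rwa [map_one, norm_one, one_le_exp_iff] at this
  · refine hmax f (fun w hw => ?_) z hz
    refine le_trans ?_ (exp_le_exp.2 (hb w hw).1)
    rw [posLog_eq_log_max_one (norm_nonneg _), exp_log (by positivity)]
    exact le_max_right _ _
  · have hci : CircleIntegrable q 0 s := hd.continuous.continuousOn.circleIntegrable'
    have e1 : circleAverage q 0 s = q 0 := hd.diffContOnCl.circleAverage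
    have e2 := Complex.reCLM.circleAverage_comp_comm hci
    rw [e1, Complex.reCLM_apply] at e2
    have hci2 := (cont_posLog f h1).circleIntegrable h0.le
    have e3 : TT f s + 1 = circleAverage (fun z => posLog ‖ev z f‖ + 1) 0 s := by
      rw [circleAverage_fun_add hci2 (circleIntegrable_const _ _ _), circleAverage_const]; rfl
    rw [← e2, e3]
    apply circleAverage_mono
    · exact (Complex.reCLM.continuous.comp hd.continuous).continuousOn.circleIntegrable'
    · exact hci2.add (circleIntegrable_const _ _ _)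
    · intro z hz
      rw [mem_sphere_zero_iff_norm, abs_of_pos h0] at hz
      exact (hb z hz).2

theorem harnack {q : ℂ → ℂ} (hq : Differentiable ℂ q) {s : ℝ} (h1 : s ≤ 1)
    (hpos : ∀ z, ‖z‖ ≤ s → 0 ≤ (q z).re) {a : ℂ} (ha : ‖a‖ < s) :
    (q a).re ≤ (2 + 2 * (q 0).re) / (s - ‖a‖) := by
  have h0 : 0 < s := (norm_nonneg _).trans_lt ha
  have hd : DifferentiableOn ℂ (fun z => -(q z - (q 0).im * Complex.I)) (ball 0 s) := by fun_prop
  have key := Complex.borelCaratheodory one_pos hd (fun w hw => by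
    have := hpos w (mem_ball_zero_iff.1 hw).le
    simp only [mem_ofPred_eq, Complex.neg_re, Complex.sub_re, Complex.mul_re, Complex.ofReal_re,
      Complex.I_re, Complex.ofReal_im, Complex.I_im]
    linarith) h0 (mem_ball_zero_iff.2 ha)
  have hq0 := hpos 0 (by simpa using h0.le)
  have e1 : q 0 - (q 0).im * Complex.I = ((q 0).re : ℂ) := by
    have := Complex.re_add_im (q 0)
    linear_combination -this
  rw [e1, norm_neg, norm_neg, Complex.norm_real, Real.norm_of_nonneg hq0, ← add_div] at key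
  have e2 : (q a).re ≤ ‖q a - (q 0).im * Complex.I‖ := by
    have := Complex.re_le_norm (q a - (q 0).im * Complex.I)
    simpa using this
  refine e2.trans (key.trans ?_)
  apply div_le_div_of_nonneg_right _ (by linarith)
  nlinarith [norm_nonneg a]

theorem naS_of_bigO {f : HR} (h : (TT f) =O[𝓝[<] 1] (fun r : ℝ => log (1 - r)⁻¹)) : NaS f := by
  obtain ⟨K, hK0, hK⟩ := h.exists_nonneg
  obtain ⟨ρ0, hρ0, hK⟩ := mem_nhdsLT_iff_exists_Ioo_subset.1 hK.bound
  have hρ0' : ρ0 < 1 := hρ0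
  have hne : ∀ z ∈ DD, (1:ℂ) - z ≠ 0 := by
    intro z hz h
    have : z = 1 := by linear_combination -h
    rw [this, mem_DD] at hz
    simp at hz
  refine ⟨ZZ, fun a ha => by rw [ev_ZZ ha]; exact mem_DD.1 ha, fun a ha => ?_⟩
  have ha1 := mem_DD.1 ha
  set r0 : ℝ := max ρ0 ((1 + ‖a‖) / 2) with hr0
  have hr01 : r0 < 1 := max_lt hρ0' (by linarith)
  have hr0a : (1 + ‖a‖) / 2 ≤ r0 := le_max_right _ _
  obtain ⟨B, hB0, hB⟩ := bdd_on f hr01
  set κ : ℝ := 2 / (1 - ‖a‖) with hκ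
  have hκ0 : 0 < κ := div_pos two_pos (by linarith)
  obtain ⟨N, hN⟩ := exists_nat_ge (2 * κ * K)
  set C : ℝ := max (B + 1) (exp (4 * κ)) with hC
  have hC1 : B + 1 ≤ C := le_max_left _ _
  have hC0 : 0 < C := by linarith
  obtain ⟨P, hP⟩ := exists_mk (f := fun z : ℂ => (C : ℂ) * ((1 - z) ^ N)⁻¹)
    (DifferentiableOn.const_mul (DifferentiableOn.inv (by fun_prop)
      fun z hz => pow_ne_zero _ (hne z hz)) _)
  refine ⟨P, N, fun b hb => ?_, fun r hr => ?_⟩
  · have d1 : HasDerivAt (fun z => ev z ZZ) 1 b := by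
      refine (hasDerivAt_id b).congr_of_eventuallyEq ?_
      filter_upwards [isOpen_ball.mem_nhds hb] with z hz
      exact ev_ZZ hz
    have d2 := ((((hasDerivAt_id b).const_sub 1).pow N).inv (pow_ne_zero _ (hne b hb))).const_mul
      (C : ℂ)
    have d3 : (fun z => ev z P) =ᶠ[𝓝 b] fun z : ℂ => (C : ℂ) * ((1 - z) ^ N)⁻¹ := by
      filter_upwards [isOpen_ball.mem_nhds hb] with z hz
      exact hP z hz
    rw [d1.deriv, (d2.congr_of_eventuallyEq d3).deriv, ev_ZZ hb, hP b hb]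
    have := hne b hb
    simp only [id, Pi.pow_apply]
    rcases N with _ | N
    · simp
    · simp only [Nat.add_sub_cancel]
      field_simp
      ring
  · set s : ℝ := ‖r‖ with hs
    have hs0 : 0 ≤ s := norm_nonneg _
    have hsm : ((s:ℝ):ℂ) ∈ DD := by rwa [mem_DD, Complex.norm_real, Real.norm_of_nonneg hs0]
    have hL : 0 ≤ log (1 - s)⁻¹ := log_nonneg (one_le_inv₀ (by linarith) |>.2 (by linarith))
    have hPs : ‖ev s P‖ = C * exp (N * log (1 - s)⁻¹) := by
      have e : (1:ℂ) - s = ((1 - s : ℝ) : ℂ) := by push_cast; ring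
      rw [hP _ hsm, norm_mul, norm_inv, norm_pow, e, Complex.norm_real, Complex.norm_real,
        Real.norm_of_nonneg hC0.le, Real.norm_of_nonneg (by linarith), ← log_pow,
        exp_log (pow_pos (inv_pos.2 (by linarith)) _), inv_pow]
    have hsZ : ‖ev s ZZ‖ ≤ s := by
      rw [ev_ZZ hsm, Complex.norm_real, Real.norm_of_nonneg hs0]
    by_cases hcase : s ≤ r0
    · have hn : ∀ z, ‖ev z (CC (C:ℂ))‖ = C := fun z => by
        rw [ev_CC, Complex.norm_real, Real.norm_of_nonneg hC0.le]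
      refine ⟨CC C, ⟨fun z _ => ?_, fun b hb hbs => ?_⟩, s, hsm, hsZ, ?_⟩
      · rw [← norm_pos_iff, hn]; exact hC0
      · rw [ev_ZZ hb] at hbs
        have := hB b (hbs.trans hcase)
        rw [hn]
        constructor <;> linarith
      · rw [hn, hPs]
        exact le_mul_of_one_le_right hC0.le (one_le_exp (by positivity))
    · push Not at hcase
      have hs1 : 0 < s := by have := norm_nonneg a; linarith
      obtain ⟨q, hq, hq1, hq2⟩ := majorant f hs1 hr
      obtain ⟨h, hh⟩ := exists_mk (f := fun z => Complex.exp (q z)) hq.cexp.differentiableOn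
      refine ⟨h, ⟨fun z hz => ?_, fun b hb hbs => ?_⟩, s, hsm, hsZ, ?_⟩
      · rw [hh z hz]; exact Complex.exp_ne_zero _
      · rw [ev_ZZ hb] at hbs
        rw [hh b hb, Complex.norm_exp]
        exact ⟨one_le_exp (hq1 b hbs).1, (hq1 b hbs).2⟩
      · have hT : TT f s ≤ K * log (1 - s)⁻¹ := by
          have := hK ⟨(le_max_left _ _).trans_lt hcase, hr⟩
          simp only [mem_ofPred_eq] at this
          rwa [Real.norm_of_nonneg (TT_nonneg _ _), Real.norm_of_nonneg hL] at this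
        have h1 := harnack hq hr.le (fun z hz => (hq1 z hz).1) (a := a) (by linarith)
        have h2 : (2 + 2 * (q 0).re) / (s - ‖a‖) ≤ κ * (2 + 2 * (q 0).re) := by
          have h3 := (hq1 0 (by simpa using hs0)).1
          rw [div_le_iff₀ (by linarith)]
          have h4 : 1 ≤ κ * (s - ‖a‖) := by
            rw [hκ, div_mul_eq_mul_div, le_div_iff₀ (by linarith)]; linarith
          nlinarith
        rw [hh a ha, Complex.norm_exp, hPs]
        calc exp (q a).re ≤ exp (4 * κ + N * log (1 - s)⁻¹) := by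
              apply exp_le_exp.2
              have h5 : κ * (q 0).re ≤ κ * (K * log (1 - s)⁻¹ + 1) := by
                apply mul_le_mul_of_nonneg_left _ hκ0.le; linarith
              have h6 : 2 * κ * K * log (1 - s)⁻¹ ≤ N * log (1 - s)⁻¹ :=
                mul_le_mul_of_nonneg_right hN hL
              nlinarith
          _ = exp (4 * κ) * exp (N * log (1 - s)⁻¹) := exp_add _ _
          _ ≤ _ := by gcongr; exact le_max_right _ _

theorem na_iff_bigO {f : HR} : Na f ↔ (TT f) =O[𝓝[<] 1] (fun r : ℝ => log (1 - r)⁻¹) :=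
  na_iff.trans ⟨bigO_of_naS, naS_of_bigO⟩

end Pool.Agent.H359Z.Adm
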