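import Pool.Agent.H359Z.Adm.Def

/-! The ring of holomorphic functions on the unit disc: units, points, divisibility. -/

set_option autoImplicit false

namespace Pool.Agent.H359Z.Adm

open Metric Set Filter Topology

/-- the unit disc -/
abbrev DD : Set ℂ := ball (0:ℂ) 1

/-- the ring of holomorphic functions on the disc, normalised outside the disc -/
abbrev SR : Subring (ℂ → ℂ) :=
  Subring.closure {g : ℂ → ℂ | DifferentiableOn ℂ g (Metric.ball (0:ℂ) 1) ∧
    ∀ z ∉ Metric.ball (0:ℂ) 1, g z = g 0}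

abbrev HR : Type := ↥SR

theorem mem_SR {g : ℂ → ℂ} : g ∈ SR ↔ DifferentiableOn ℂ g DD ∧ ∀ z ∉ DD, g z = g 0 := by
  constructor
  · intro hg
    induction hg using Subring.closure_induction with
    | mem x hx => exact hx
    | zero => exact ⟨differentiableOn_const 0, fun _ _ => rfl⟩
    | one => exact ⟨differentiableOn_const 1, fun _ _ => rfl⟩
    | add x y _ _ hx hy => exact ⟨hx.1.add hy.1, fun z hz => by simp [hx.2 z hz, hy.2 z hz]⟩
    | neg x _ hx => exact ⟨hx.1.neg, fun z hz => by simp [hx.2 z hz]⟩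
    | mul x y _ _ hx hy => exact ⟨hx.1.mul hy.1, fun z hz => by simp [hx.2 z hz, hy.2 z hz]⟩
  · intro hg
    exact Subring.subset_closure hg

theorem zero_mem_DD : (0:ℂ) ∈ DD := mem_ball_self one_pos

theorem mem_DD {z : ℂ} : z ∈ DD ↔ ‖z‖ < 1 := mem_ball_zero_iff

/-- evaluation -/
def ev (a : ℂ) : HR →+* ℂ := (Pi.evalRingHom (fun _ : ℂ => ℂ) a).comp SR.subtype

theorem ev_def (a : ℂ) (x : HR) : ev a x = (x : ℂ → ℂ) a := rfl

theorem diff (x : HR) : DifferentiableOn ℂ (fun z => ev z x) DD := (mem_SR.1 x.2).1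

theorem anal (x : HR) : AnalyticOnNhd ℂ (fun z => ev z x) DD := (diff x).analyticOnNhd isOpen_ball

theorem ext' {x y : HR} (h : ∀ z ∈ DD, ev z x = ev z y) : x = y := by
  apply Subtype.ext
  funext z
  by_cases hz : z ∈ DD
  · exact h z hz
  · rw [(mem_SR.1 x.2).2 z hz, (mem_SR.1 y.2).2 z hz]
    exact h 0 zero_mem_DD

theorem exists_mk {f : ℂ → ℂ} (hf : DifferentiableOn ℂ f DD) :
    ∃ x : HR, ∀ z ∈ DD, ev z x = f z := by
  classical
  refine ⟨⟨fun z => if z ∈ DD then f z else f 0, mem_SR.2 ⟨?_, ?_⟩⟩, ?_⟩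
  · exact hf.congr fun z hz => by simp only [if_pos hz]
  · intro z hz
    simp only [if_neg hz, if_pos zero_mem_DD]
  · intro z hz
    show (if z ∈ DD then f z else f 0) = f z
    simp only [if_pos hz]

/-- constants -/
def CC : ℂ →+* HR :=
  (Pi.constRingHom ℂ ℂ).codRestrict SR
    (fun c => mem_SR.2 ⟨differentiableOn_const c, fun _ _ => rfl⟩)

@[simp] theorem ev_CC (a c : ℂ) : ev a (CC c) = c := rfl

theorem CC_inj {c d : ℂ} (h : CC c = CC d) : c = d := by
  simpa using congrArg (ev 0) h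

/-- the coordinate -/
noncomputable def ZZ : HR := (exists_mk (f := fun z => z) differentiableOn_id).choose

theorem ev_ZZ {z : ℂ} (hz : z ∈ DD) : ev z ZZ = z :=
  (exists_mk (f := fun z => z) differentiableOn_id).choose_spec z hz

/-- the function `z - a` -/
noncomputable def zc (a : ℂ) : HR := ZZ - CC a

theorem ev_zc {z : ℂ} (hz : z ∈ DD) (a : ℂ) : ev z (zc a) = z - a := by
  simp [zc, ev_ZZ hz]

theorem un_iff {x : HR} : Un x ↔ ∀ z ∈ DD, ev z x ≠ 0 := by
  constructor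
  · rintro ⟨y, hy⟩ z _ h
    have := congrArg (ev z) hy
    simp [h] at this
  · intro h
    obtain ⟨y, hy⟩ := exists_mk (f := fun z => (ev z x)⁻¹) ((diff x).inv h)
    refine ⟨y, ext' fun z hz => ?_⟩
    simp [hy z hz, h z hz]

theorem zc_dvd {a : ℂ} (ha : a ∈ DD) {x : HR} : zc a ∣ x ↔ ev a x = 0 := by
  constructor
  · rintro ⟨c, rfl⟩
    simp [ev_zc ha]
  · intro h
    have hd : DifferentiableOn ℂ (dslope (fun z => ev z x) a) DD :=
      (Complex.differentiableOn_dslope (isOpen_ball.mem_nhds ha)).2 (diff x)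
    obtain ⟨y, hy⟩ := exists_mk hd
    refine ⟨y, ext' fun z hz => ?_⟩
    rw [map_mul, hy z hz, ev_zc hz]
    have := sub_smul_dslope (fun z => ev z x) a z
    simp only [smul_eq_mul, h, sub_zero] at this
    exact this.symm

instance : NoZeroDivisors HR := ⟨fun {x y} h => by
  have := (anal x).eq_zero_or_eq_zero_of_mul_eq_zero (anal y)
    (fun z _ => by rw [← map_mul, h, map_zero]) (convex_ball _ _).isPreconnected
  rcases this with h | h
  · exact Or.inl (ext' fun z hz => by simpa using h z hz)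
  · exact Or.inr (ext' fun z hz => by simpa using h z hz)⟩

instance : IsDomain HR := NoZeroDivisors.to_isDomain _

theorem zc_ne_zero (a : ℂ) : zc a ≠ 0 := by
  intro h
  have h1 := congrArg (ev 0) h
  have h2 := congrArg (ev (1/2)) h
  rw [ev_zc zero_mem_DD] at h1
  rw [ev_zc (mem_DD.2 (by norm_num))] at h2
  simp only [map_zero] at h1 h2
  have : (1/2 : ℂ) = 0 := by linear_combination h2 - h1
  norm_num at this

theorem un_iff_isUnit {x : HR} : Un x ↔ IsUnit x := isUnit_iff_exists_inv.symm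

theorem zc_prime {a : ℂ} (ha : a ∈ DD) : Prime (zc a) := by
  refine ⟨zc_ne_zero a, ?_, ?_⟩
  · rw [← un_iff_isUnit, un_iff]
    intro h
    exact h a ha (by simp [ev_zc ha])
  · intro x y h
    simpa [zc_dvd ha] using h

theorem ir_iff_irr {p : HR} : Ir p ↔ Irreducible p := by
  unfold Ir
  simp only [un_iff_isUnit]
  exact ⟨fun h => ⟨h.1, fun {a b} => h.2 a b⟩, fun h => ⟨h.1, fun a b hab => h.2 hab⟩⟩

theorem ir_zc {a : ℂ} (ha : a ∈ DD) : Ir (zc a) := ir_iff_irr.2 (zc_prime ha).irreducible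

theorem ir_assoc {p : HR} (hp : Ir p) : ∃ a ∈ DD, Associated p (zc a) := by
  have h1 := hp.1
  rw [un_iff] at h1
  push Not at h1
  obtain ⟨a, ha, h⟩ := h1
  exact ⟨a, ha, (((zc_prime ha).irreducible.associated_of_dvd (ir_iff_irr.1 hp)
    ((zc_dvd ha).2 h))).symm⟩

theorem dv_iff {x y : HR} : Dv x y ↔ x ∣ y := Iff.rfl

theorem dv_assoc {p : HR} {a : ℂ} (ha : a ∈ DD) (h : Associated p (zc a)) {x : HR} :
    Dv p x ↔ ev a x = 0 := by
  rw [dv_iff, h.dvd_iff_dvd_left, zc_dvd ha]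

theorem deriv_ev_mul {a : ℂ} (ha : a ∈ DD) (y : HR) :
    HasDerivAt (fun z => ev z (zc a * y)) (ev a y) a := by
  have h1 : HasDerivAt (fun z => ev z y) (deriv (fun z => ev z y) a) a :=
    ((diff y).differentiableAt (isOpen_ball.mem_nhds ha)).hasDerivAt
  have h2 := ((hasDerivAt_id a).sub_const a).mul h1
  simp only [id, sub_self, zero_mul, add_zero, one_mul] at h2
  refine h2.congr_of_eventuallyEq ?_
  filter_upwards [isOpen_ball.mem_nhds ha] with z hz
  simp [ev_zc hz]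

theorem zc_sq_dvd {a : ℂ} (ha : a ∈ DD) {x : HR} :
    zc a * zc a ∣ x ↔ ev a x = 0 ∧ HasDerivAt (fun z => ev z x) 0 a := by
  constructor
  · rintro ⟨c, rfl⟩
    refine ⟨by simp [ev_zc ha], ?_⟩
    have := deriv_ev_mul ha (zc a * c)
    simpa [ev_zc ha, mul_assoc] using this
  · rintro ⟨h1, h2⟩
    obtain ⟨y, rfl⟩ := (zc_dvd ha).2 h1
    have := (deriv_ev_mul ha y).unique h2
    exact mul_dvd_mul_left _ ((zc_dvd ha).2 this)

theorem od_iff {p F w y : HR} {a : ℂ} {m : ℕ} (ha : a ∈ DD) (h : Associated p (zc a))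
    (hF : F = zc a ^ m * w) (hw : ev a w ≠ 0) : Od p F y ↔ zc a ^ m ∣ y := by
  constructor
  · rintro ⟨u, hu, hd⟩
    rw [dv_assoc ha h] at hu
    rw [dv_iff] at hd
    have h1 : zc a ^ m ∣ y * u := (Dvd.intro _ hF.symm).trans hd
    exact (zc_prime ha).pow_dvd_of_dvd_mul_right m (by rwa [zc_dvd ha]) h1
  · intro hd
    refine ⟨w, by rwa [dv_assoc ha h], ?_⟩
    rw [dv_iff, hF]
    exact mul_dvd_mul_right hd w

theorem const_or_open (x : HR) :
    (∃ c, x = CC c) ∨ IsOpen ((fun z => ev z x) '' DD) := by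
  rcases (anal x).is_constant_or_isOpen (convex_ball _ _).isPreconnected with ⟨w, hw⟩ | h
  · exact Or.inl ⟨w, ext' fun z hz => by simpa using hw z hz⟩
  · exact Or.inr (h _ subset_rfl isOpen_ball)

theorem bdd_on (x : HR) {r : ℝ} (hr : r < 1) : ∃ B : ℝ, 0 < B ∧ ∀ z, ‖z‖ ≤ r → ‖ev z x‖ ≤ B := by
  have hsub : closedBall (0:ℂ) r ⊆ DD := closedBall_subset_ball hr
  obtain ⟨B, hB⟩ := (isCompact_closedBall (0:ℂ) r).exists_bound_of_continuousOn
    ((diff x).continuousOn.mono hsub)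
  refine ⟨max B 1, by positivity, fun z hz => (hB z (by simpa using hz)).trans (le_max_left _ _)⟩

end Pool.Agent.H359Z.Adm
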